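import Pool.Agent.H73.FF.Desc

/-!
# Abelian extensions: twists
-/

set_option autoImplicit false

namespace Pool.Agent.H73.FF

variable {K : Type} [Field K] {p : ℕ} [Fact p.Prime] {n m : ℕ}

/-- the action of `g` on the matrices -/
noncomputable def act (ρ : Rep K p n) (θ : Rep K p m) (g : GK K) :
    Matrix (Fin m) (Fin n) (PadicAlgCl p) →ₗ[PadicAlgCl p]
      Matrix (Fin m) (Fin n) (PadicAlgCl p) where
  toFun X := mat θ g * X * mat ρ g⁻¹
  map_add' X Y := by rw [Matrix.mul_add, Matrix.add_mul]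
  map_smul' c X := by
    rw [Matrix.mul_smul, Matrix.smul_mul, RingHom.id_apply]

theorem act_apply (ρ : Rep K p n) (θ : Rep K p m) (g : GK K)
    (X : Matrix (Fin m) (Fin n) (PadicAlgCl p)) :
    act ρ θ g X = mat θ g * X * mat ρ g⁻¹ := rfl

theorem act_mul (ρ : Rep K p n) (θ : Rep K p m) (g h : GK K)
    (X : Matrix (Fin m) (Fin n) (PadicAlgCl p)) :
    act ρ θ (g * h) X = act ρ θ g (act ρ θ h X) := by
  rw [act_apply, act_apply, act_apply, mul_inv_rev, mat_mul, mat_mul]
  simp only [Matrix.mul_assoc]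

theorem act_one (ρ : Rep K p n) (θ : Rep K p m) (X : Matrix (Fin m) (Fin n) (PadicAlgCl p)) :
    act ρ θ 1 X = X := by
  rw [act_apply, inv_one, mat_one, mat_one, Matrix.one_mul, Matrix.mul_one]

theorem act_fix_iff (ρ : Rep K p n) (θ : Rep K p m) (g : GK K)
    (X : Matrix (Fin m) (Fin n) (PadicAlgCl p)) (c : PadicAlgCl p) :
    act ρ θ g X = c • X ↔ mat θ g * X = c • (X * mat ρ g) := by
  rw [act_apply]
  constructor
  · intro h
    have h2 := congrArg (fun Y => Y * mat ρ g) h
    simp only [Matrix.mul_assoc, mat_inv_mul, Matrix.mul_one, Matrix.smul_mul] at h2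
    exact h2
  · intro h
    rw [h, Matrix.smul_mul, Matrix.mul_assoc, mat_mul_inv, Matrix.mul_one]

/-- a common eigenvector of the group acting through an abelian quotient -/
theorem exists_common (ρ : Rep K p n) (θ : Rep K p m) (H : Subgroup (GK K))
    (hab : ∀ g h : GK K, g * h * g⁻¹ * h⁻¹ ∈ H)
    (X0 : Matrix (Fin m) (Fin n) (PadicAlgCl p)) (hX0 : X0 ≠ 0)
    (hH : ∀ h ∈ H, act ρ θ h X0 = X0) :
    ∃ X : Matrix (Fin m) (Fin n) (PadicAlgCl p), X ≠ 0 ∧ (∀ h ∈ H, act ρ θ h X = X) ∧
      ∀ g, ∃ c : PadicAlgCl p, act ρ θ g X = c • X := by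
  classical
  have hnorm : ∀ g : GK K, ∀ h ∈ H, g⁻¹ * h * g ∈ H := by
    intro g h hh
    have h1 := hab g⁻¹ h
    rw [inv_inv] at h1
    have h2 := mul_mem h1 hh
    rwa [inv_mul_cancel_right] at h2
  let T : Submodule (PadicAlgCl p) (Matrix (Fin m) (Fin n) (PadicAlgCl p)) :=
    { carrier := {X | ∀ h ∈ H, act ρ θ h X = X}
      zero_mem' := fun h _ => map_zero _
      add_mem' := fun {X Y} hX hY h hh => by rw [map_add, hX h hh, hY h hh]
      smul_mem' := fun c X hX h hh => by rw [map_smul, hX h hh] }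
  have hTact : ∀ g, ∀ X ∈ T, act ρ θ g X ∈ T := by
    intro g X hX h hh
    have e : h * g = g * (g⁻¹ * h * g) := by group
    rw [← act_mul, e, act_mul, hX _ (hnorm g h hh)]
  have hTcomm : ∀ g h, ∀ X ∈ T, act ρ θ g (act ρ θ h X) = act ρ θ h (act ρ θ g X) := by
    intro g h X hX
    have e : g * h = (g * h * g⁻¹ * h⁻¹) * (h * g) := by group
    rw [← act_mul, e, act_mul, act_mul ρ θ h g X]
    exact hTact h _ (hTact g X hX) _ (hab g h)
  -- a minimal invariant subspace
  have hex : ∃ k : ℕ, ∃ W : Submodule (PadicAlgCl p) (Matrix (Fin m) (Fin n) (PadicAlgCl p)),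
      W ≤ T ∧ W ≠ ⊥ ∧ (∀ g, ∀ X ∈ W, act ρ θ g X ∈ W) ∧ Module.finrank (PadicAlgCl p) W = k :=
    ⟨_, T, le_rfl, fun hb => hX0 ((Submodule.mem_bot _).mp (hb ▸ (show X0 ∈ T from hH))),
      hTact, rfl⟩
  obtain ⟨W, hWT, hW0, hWact, hWk⟩ := Nat.find_spec hex
  have hmin := fun k => Nat.find_min (m := k) hex
  have hscal : ∀ g, ∃ c : PadicAlgCl p, ∀ X ∈ W, act ρ θ g X = c • X := by
    intro g
    haveI : Nontrivial W := Submodule.nontrivial_iff_ne_bot.mpr hW0
    obtain ⟨c, hc⟩ := Module.End.exists_eigenvalue ((act ρ θ g).restrict (hWact g))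
    obtain ⟨w, hw⟩ := hc.exists_hasEigenvector
    have hw1 : act ρ θ g w.1 = c • w.1 := by
      have := hw.apply_eq_smul
      exact congrArg Subtype.val this
    have hw2 : w.1 ≠ 0 := fun e => hw.2 (Subtype.ext e)
    let Z : Submodule (PadicAlgCl p) (Matrix (Fin m) (Fin n) (PadicAlgCl p)) :=
      { carrier := {X | X ∈ W ∧ act ρ θ g X = c • X}
        zero_mem' := ⟨W.zero_mem, by rw [map_zero, smul_zero]⟩
        add_mem' := fun {X Y} hX hY => ⟨W.add_mem hX.1 hY.1, by
          rw [map_add, hX.2, hY.2, smul_add]⟩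
        smul_mem' := fun d X hX => ⟨W.smul_mem d hX.1, by
          rw [map_smul, hX.2, smul_comm]⟩ }
    have hZW : Z ≤ W := fun X hX => hX.1
    have hZ0 : Z ≠ ⊥ := by
      intro hb
      have : w.1 ∈ Z := ⟨w.2, hw1⟩
      rw [hb] at this
      exact hw2 ((Submodule.mem_bot _).mp this)
    have hZact : ∀ h, ∀ X ∈ Z, act ρ θ h X ∈ Z := by
      intro h X hX
      refine ⟨hWact h X hX.1, ?_⟩
      rw [hTcomm g h X (hWT hX.1), hX.2, map_smul]
    have hle := Submodule.finrank_mono hZW
    have heq : Module.finrank (PadicAlgCl p) Z = Module.finrank (PadicAlgCl p) W := by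
      apply le_antisymm hle
      by_contra hlt
      push Not at hlt
      rw [hWk] at hlt
      exact hmin _ hlt ⟨Z, hZW.trans hWT, hZ0, hZact, rfl⟩
    have hZeq : Z = W := Submodule.eq_of_le_of_finrank_eq hZW heq
    refine ⟨c, fun X hX => ?_⟩
    rw [← hZeq] at hX
    exact hX.2
  obtain ⟨X, hXW, hX⟩ := Submodule.exists_mem_ne_zero_of_ne_bot hW0
  exact ⟨X, hX, fun h hh => hWT hXW h hh, fun g => by
    obtain ⟨c, hc⟩ := hscal g
    exact ⟨c, hc X hXW⟩⟩

theorem twist_abelian (ρ : Rep K p n) (θ : Rep K p m) (hρ : Continuous ρ) (hθ : Continuous θ)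
    (hirr : Irreducible ρ) (L : IntermediateField K (SeparableClosure K))
    (hab : ∀ g h : GK K, g * h * g⁻¹ * h⁻¹ ∈ L.fixingSubgroup)
    (h : ∃ X : Matrix (Fin m) (Fin n) (PadicAlgCl p), X ≠ 0 ∧
      ∀ g ∈ L.fixingSubgroup, mat θ g * X = X * mat ρ g) :
    ∃ χ : GK K →* (PadicAlgCl p)ˣ, Continuous (fun g => (χ g : PadicAlgCl p)) ∧
      (∀ g ∈ L.fixingSubgroup, χ g = 1) ∧
      ∃ X : Matrix (Fin m) (Fin n) (PadicAlgCl p), (∀ y, X.mulVec y = 0 → y = 0) ∧
        ∀ g, mat θ g * X = (χ g : PadicAlgCl p) • (X * mat ρ g) := by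
  classical
  obtain ⟨X0, hne, hL⟩ := h
  have hfix : ∀ h ∈ L.fixingSubgroup, act ρ θ h X0 = X0 := by
    intro h hh
    have := (act_fix_iff ρ θ h X0 1).mpr (by rw [one_smul]; exact hL h hh)
    rwa [one_smul] at this
  obtain ⟨X, hX, hXL, hXg⟩ := exists_common ρ θ L.fixingSubgroup hab X0 hne hfix
  choose c hc using hXg
  have hmul : ∀ g h, c (g * h) = c g * c h := by
    intro g h
    have e1 := hc (g * h)
    rw [act_mul, hc h, map_smul, hc g, smul_smul] at e1
    have e2 : (c h * c g - c (g * h)) • X = 0 := by rw [sub_smul, e1, sub_self]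
    rcases smul_eq_zero.mp e2 with h0 | h0
    · rw [sub_eq_zero] at h0
      rw [← h0, mul_comm]
    · exact absurd h0 hX
  have hone : c 1 = 1 := by
    have e1 := hc 1
    rw [act_one] at e1
    have e2 : (1 - c 1) • X = 0 := by rw [sub_smul, one_smul, ← e1, sub_self]
    rcases smul_eq_zero.mp e2 with h0 | h0
    · exact (sub_eq_zero.mp h0).symm
    · exact absurd h0 hX
  let χ : GK K →* (PadicAlgCl p)ˣ :=
    { toFun := fun g =>
        { val := c g
          inv := c g⁻¹
          val_inv := by rw [← hmul, mul_inv_cancel, hone]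
          inv_val := by rw [← hmul, inv_mul_cancel, hone] }
      map_one' := by ext; exact hone
      map_mul' := fun g h => by ext; exact hmul g h }
  refine ⟨χ, ?_, ?_, X, ?_, ?_⟩
  · -- continuity
    obtain ⟨i, j, hij⟩ : ∃ i j, X i j ≠ 0 := by
      by_contra hcon
      push Not at hcon
      exact hX (by ext i j; exact hcon i j)
    have e : (fun g => ((χ g : (PadicAlgCl p)ˣ) : PadicAlgCl p)) =
        fun g => (mat θ g * X * mat ρ g⁻¹) i j / X i j := by
      funext g
      have := congrFun (congrFun (hc g) i) j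
      rw [act_apply, Matrix.smul_apply, smul_eq_mul] at this
      rw [this, mul_div_cancel_right₀ _ hij]
      rfl
    rw [e]
    have hcont : Continuous fun g => mat θ g * X * mat ρ g⁻¹ :=
      ((continuous_mat hθ).matrix_mul continuous_const).matrix_mul
        ((continuous_mat hρ).comp continuous_inv)
    exact (hcont.matrix_elem i j).div_const _
  · intro g hg
    ext
    have e1 := hc g
    rw [hXL g hg] at e1
    have e2 : (1 - c g) • X = 0 := by rw [sub_smul, one_smul, ← e1, sub_self]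
    rcases smul_eq_zero.mp e2 with h0 | h0
    · exact (sub_eq_zero.mp h0).symm
    · exact absurd h0 hX
  · -- injectivity
    have hχ : ∀ g, mat θ g * X = c g • (X * mat ρ g) := fun g =>
      (act_fix_iff ρ θ g X (c g)).mp (hc g)
    have hcne : ∀ g, c g ≠ 0 := fun g => (χ g).ne_zero
    rcases hirr.2 (LinearMap.ker (Matrix.mulVecLin X)) (by
      intro g u hu
      rw [LinearMap.mem_ker, Matrix.mulVecLin_apply] at hu ⊢
      have h1 : (mat θ g * X).mulVec u = 0 := by
        rw [← Matrix.mulVec_mulVec, hu, Matrix.mulVec_zero]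
      rw [hχ g, Matrix.smul_mulVec, ← Matrix.mulVec_mulVec] at h1
      exact (smul_eq_zero.mp h1).resolve_left (hcne g)) with h0 | h0
    · intro y hy
      have : y ∈ LinearMap.ker (Matrix.mulVecLin X) := by
        rw [LinearMap.mem_ker, Matrix.mulVecLin_apply]; exact hy
      rw [h0] at this
      exact (Submodule.mem_bot _).mp this
    · exfalso
      apply hX
      ext i j
      have : (Pi.single j 1 : Fin n → PadicAlgCl p) ∈ LinearMap.ker (Matrix.mulVecLin X) := by
        rw [h0]; exact Submodule.mem_top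
      rw [LinearMap.mem_ker, Matrix.mulVecLin_apply, Matrix.mulVec_single_one] at this
      exact congrFun this i
  · intro g
    exact (act_fix_iff ρ θ g X (c g)).mp (hc g)

end Pool.Agent.H73.FF
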