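import Pool.Agent.H73.FF.Desc

/-!
# Clifford's theorem for the restriction to a normal subgroup
-/

set_option autoImplicit false

namespace Pool.Agent.H73.FF

variable {K : Type} [Field K] {p : ℕ} [Fact p.Prime] {n m : ℕ}

/-- `S` is stable under `H` -/
def Stb (H : Subgroup (GK K)) (θ : Rep K p m)
    (S : Submodule (PadicAlgCl p) (Fin m → PadicAlgCl p)) : Prop :=
  ∀ h ∈ H, ∀ u ∈ S, (mat θ h).mulVec u ∈ S

/-- the translate of a subspace -/
noncomputable def tr (θ : Rep K p m) (g : GK K)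
    (S : Submodule (PadicAlgCl p) (Fin m → PadicAlgCl p)) :
    Submodule (PadicAlgCl p) (Fin m → PadicAlgCl p) :=
  S.comap (Matrix.mulVecLin (mat θ g⁻¹))

theorem mem_tr (θ : Rep K p m) (g : GK K)
    (S : Submodule (PadicAlgCl p) (Fin m → PadicAlgCl p)) (u : Fin m → PadicAlgCl p) :
    u ∈ tr θ g S ↔ (mat θ g⁻¹).mulVec u ∈ S := Iff.rfl

theorem mul_vec (θ : Rep K p m) (g h : GK K) (u : Fin m → PadicAlgCl p) :
    (mat θ (g * h)).mulVec u = (mat θ g).mulVec ((mat θ h).mulVec u) := by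
  rw [mat_mul, Matrix.mulVec_mulVec]

theorem one_vec (θ : Rep K p m) (u : Fin m → PadicAlgCl p) : (mat θ 1).mulVec u = u := by
  rw [mat_one, Matrix.one_mulVec]

theorem stb_tr (H : Subgroup (GK K)) [H.Normal] (θ : Rep K p m) (g : GK K)
    (S : Submodule (PadicAlgCl p) (Fin m → PadicAlgCl p)) (hS : Stb H θ S) :
    Stb H θ (tr θ g S) := by
  intro h hh u hu
  rw [mem_tr] at hu ⊢
  have e : g⁻¹ * h = (g⁻¹ * h * g) * g⁻¹ := by group
  rw [← mul_vec, e, mul_vec]
  refine hS _ ?_ _ hu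
  have := ‹H.Normal›.conj_mem h hh g⁻¹
  rwa [inv_inv] at this

theorem clifford (H : Subgroup (GK K)) [H.Normal] (θ : Rep K p m) (hss : Semisimple θ)
    (S : Submodule (PadicAlgCl p) (Fin m → PadicAlgCl p)) (hS : Stb H θ S) :
    ∃ C : Submodule (PadicAlgCl p) (Fin m → PadicAlgCl p), Stb H θ C ∧ IsCompl S C := by
  classical
  -- a maximal stable subspace disjoint from `S`
  have hne : {k : ℕ | ∃ C : Submodule (PadicAlgCl p) (Fin m → PadicAlgCl p), Stb H θ C ∧
      S ⊓ C = ⊥ ∧ Module.finrank (PadicAlgCl p) C = k}.Nonempty :=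
    ⟨_, ⊥, fun h _ u hu => by
      rw [Submodule.mem_bot] at hu ⊢
      rw [hu, Matrix.mulVec_zero], inf_bot_eq S, rfl⟩
  have hbd : BddAbove {k : ℕ | ∃ C : Submodule (PadicAlgCl p) (Fin m → PadicAlgCl p), Stb H θ C ∧
      S ⊓ C = ⊥ ∧ Module.finrank (PadicAlgCl p) C = k} := by
    refine ⟨Module.finrank (PadicAlgCl p) (Fin m → PadicAlgCl p), ?_⟩
    rintro k ⟨C, -, -, rfl⟩
    exact Submodule.finrank_le C
  obtain ⟨C, hC, hSC, hmax⟩ := Nat.sSup_mem hne hbd
  refine ⟨C, hC, ?_⟩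
  rw [isCompl_iff, disjoint_iff, codisjoint_iff]
  refine ⟨hSC, ?_⟩
  by_contra htop
  -- the largest `G`-stable subspace of `S ⊔ C`
  let N' : Submodule (PadicAlgCl p) (Fin m → PadicAlgCl p) :=
    { carrier := {v | ∀ g, (mat θ g).mulVec v ∈ S ⊔ C}
      zero_mem' := fun g => by rw [Matrix.mulVec_zero]; exact Submodule.zero_mem _
      add_mem' := fun {a b} ha hb g => by
        rw [Matrix.mulVec_add]; exact Submodule.add_mem _ (ha g) (hb g)
      smul_mem' := fun c a ha g => by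
        rw [Matrix.mulVec_smul]; exact Submodule.smul_mem _ c (ha g) }
  have hN'stab : ∀ g, ∀ u ∈ N', (mat θ g).mulVec u ∈ N' := by
    intro g u hu g'
    rw [← mul_vec]
    exact hu (g' * g)
  have hN'le : N' ≤ S ⊔ C := by
    intro u hu
    have := hu 1
    rwa [one_vec] at this
  obtain ⟨V', hV', hcompl⟩ := hss N' hN'stab
  have hV'0 : V' ≠ ⊥ := by
    intro h0
    rw [h0] at hcompl
    have : N' = ⊤ := by
      have := hcompl.sup_eq_top
      rwa [sup_bot_eq] at this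
    exact htop (top_le_iff.mp (this ▸ hN'le))
  -- a minimal `H`-stable subspace of `V'`
  have hex : ∃ k : ℕ, ∃ W : Submodule (PadicAlgCl p) (Fin m → PadicAlgCl p),
      W ≤ V' ∧ W ≠ ⊥ ∧ Stb H θ W ∧ Module.finrank (PadicAlgCl p) W = k :=
    ⟨_, V', le_rfl, hV'0, fun h _ u hu => hV' h u hu, rfl⟩
  obtain ⟨W, hWV, hW0, hW, hWk⟩ := Nat.find_spec hex
  have hmin := fun k => Nat.find_min (m := k) hex
  have hWmin : ∀ Y : Submodule (PadicAlgCl p) (Fin m → PadicAlgCl p), Y ≤ W → Stb H θ Y →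
      Y = ⊥ ∨ Y = W := by
    intro Y hY hYs
    by_cases hY0 : Y = ⊥
    · exact Or.inl hY0
    · right
      apply Submodule.eq_of_le_of_finrank_eq hY
      apply le_antisymm (Submodule.finrank_mono hY)
      by_contra hlt
      push Not at hlt
      rw [hWk] at hlt
      exact hmin _ hlt ⟨Y, hY.trans hWV, hY0, hYs, rfl⟩
  -- a translate of `W` is not contained in `S ⊔ C`
  obtain ⟨g, hg⟩ : ∃ g, ¬ tr θ g W ≤ S ⊔ C := by
    by_contra hall
    push Not at hall
    apply hW0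
    rw [eq_bot_iff, ← hcompl.inf_eq_bot]
    refine le_inf ?_ hWV
    intro u hu g
    apply hall g
    rw [mem_tr, ← mul_vec, inv_mul_cancel, one_vec]
    exact hu
  have hNs : Stb H θ (S ⊔ C) := by
    intro h hh u hu
    obtain ⟨a, ha, b, hb, rfl⟩ := Submodule.mem_sup.mp hu
    rw [Matrix.mulVec_add]
    exact Submodule.add_mem_sup (hS h hh a ha) (hC h hh b hb)
  have hgW : Stb H θ (tr θ g W) := stb_tr H θ g W hW
  have hint : tr θ g W ⊓ (S ⊔ C) = ⊥ := by
    have hYs : Stb H θ (tr θ g W ⊓ (S ⊔ C)) := fun h hh u hu =>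
      ⟨hgW h hh u hu.1, hNs h hh u hu.2⟩
    have hle : tr θ g⁻¹ (tr θ g W ⊓ (S ⊔ C)) ≤ W := by
      intro u hu
      have h1 := hu.1
      rw [inv_inv] at h1
      have h2 : (mat θ g⁻¹).mulVec ((mat θ g).mulVec u) ∈ W := h1
      rwa [← mul_vec, inv_mul_cancel, one_vec] at h2
    rcases hWmin _ hle (stb_tr H θ g⁻¹ _ hYs) with h0 | h0
    · rw [eq_bot_iff]
      intro u hu
      have : (mat θ g⁻¹).mulVec u ∈ tr θ g⁻¹ (tr θ g W ⊓ (S ⊔ C)) := by
        rw [mem_tr, inv_inv, ← mul_vec, mul_inv_cancel, one_vec]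
        exact hu
      rw [h0, Submodule.mem_bot] at this
      rw [Submodule.mem_bot]
      have e := congrArg (fun x => (mat θ g).mulVec x) this
      simp only [Matrix.mulVec_zero] at e
      rwa [← mul_vec, mul_inv_cancel, one_vec] at e
    · exfalso
      apply hg
      intro u hu
      have h1 : (mat θ g⁻¹).mulVec u ∈ W := hu
      rw [← h0, mem_tr, inv_inv, ← mul_vec, mul_inv_cancel, one_vec] at h1
      exact h1.2
  -- contradiction to maximality
  have hC' : Stb H θ (C ⊔ tr θ g W) := by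
    intro h hh u hu
    obtain ⟨a, ha, b, hb, rfl⟩ := Submodule.mem_sup.mp hu
    rw [Matrix.mulVec_add]
    exact Submodule.add_mem_sup (hC h hh a ha) (hgW h hh b hb)
  have hdis : S ⊓ (C ⊔ tr θ g W) = ⊥ := by
    rw [eq_bot_iff]
    rintro u ⟨hu1, hu2⟩
    obtain ⟨a, ha, b, hb, rfl⟩ := Submodule.mem_sup.mp hu2
    have hb' : b ∈ S ⊔ C := by
      have e : b = (a + b) - a := by abel
      rw [e]
      exact Submodule.sub_mem _ (Submodule.mem_sup_left hu1) (Submodule.mem_sup_right ha)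
    have hb0 : b = 0 := by
      have : b ∈ tr θ g W ⊓ (S ⊔ C) := ⟨hb, hb'⟩
      rw [hint] at this
      exact (Submodule.mem_bot _).mp this
    rw [hb0, add_zero] at hu1 ⊢
    have : a ∈ S ⊓ C := ⟨hu1, ha⟩
    rw [hSC] at this
    exact this
  have hlt : C < C ⊔ tr θ g W := by
    refine lt_of_le_of_ne le_sup_left ?_
    intro e
    apply hg
    have : tr θ g W ≤ C := by rw [e]; exact le_sup_right
    exact this.trans le_sup_right
  have h1 := Submodule.finrank_lt_finrank_of_lt hlt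
  have h2 := le_csSup hbd ⟨C ⊔ tr θ g W, hC', hdis, rfl⟩
  rw [← hmax] at h2
  omega

/-- A subquotient of the restriction of a semisimple representation to a normal subgroup is a
subrepresentation. -/
theorem sub_of_subquotient (L : IntermediateField K (SeparableClosure K))
    [(L.fixingSubgroup).Normal] (ρ : Rep K p n) (θ : Rep K p m) (hss : Semisimple θ)
    (h : SubquotientOver L ρ θ) : SubOver L ρ θ := by
  obtain ⟨S, π, hπ, hS⟩ := h
  have hS0 : Stb L.fixingSubgroup θ ((LinearMap.ker π).map S.subtype) := by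
    intro g hg u hu
    obtain ⟨v, hv, rfl⟩ := hu
    obtain ⟨h1, h2⟩ := hS g hg v
    refine ⟨⟨_, h1⟩, ?_, rfl⟩
    show π _ = 0
    rw [h2, (show π v = 0 from hv), Matrix.mulVec_zero]
  obtain ⟨D, hD, hcompl⟩ := clifford L.fixingSubgroup θ hss _ hS0
  -- the restriction of `π` to `S ∩ D`
  have hinj : Function.Injective (π.domRestrict (D.comap S.subtype)) := by
    intro u u' huu
    have h0 : π (u.1 - u'.1) = 0 := by
      rw [map_sub]; exact sub_eq_zero.mpr huu
    have h1 : ((u.1 - u'.1 : S) : Fin m → PadicAlgCl p) ∈ (LinearMap.ker π).map S.subtype :=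
      ⟨u.1 - u'.1, h0, rfl⟩
    have h2 : ((u.1 - u'.1 : S) : Fin m → PadicAlgCl p) ∈ D := by
      rw [Submodule.coe_sub]; exact D.sub_mem u.2 u'.2
    have h3 : ((u.1 - u'.1 : S) : Fin m → PadicAlgCl p) ∈
        (LinearMap.ker π).map S.subtype ⊓ D := ⟨h1, h2⟩
    rw [hcompl.inf_eq_bot, Submodule.mem_bot] at h3
    have h4 : u.1 - u'.1 = 0 := Subtype.ext h3
    exact Subtype.ext (sub_eq_zero.mp h4)
  have hsurj : Function.Surjective (π.domRestrict (D.comap S.subtype)) := by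
    intro y
    obtain ⟨s, hs⟩ := hπ y
    have : (s : Fin m → PadicAlgCl p) ∈ (LinearMap.ker π).map S.subtype ⊔ D := by
      rw [hcompl.sup_eq_top]; exact Submodule.mem_top
    obtain ⟨a, ha, d, hd, hadd⟩ := Submodule.mem_sup.mp this
    obtain ⟨v, hv, rfl⟩ := ha
    have hd' : ((s - v : S) : Fin m → PadicAlgCl p) = d := by
      rw [Submodule.coe_sub, ← hadd]
      show (v : Fin m → PadicAlgCl p) + d - v = d
      abel
    refine ⟨⟨s - v, ?_⟩, ?_⟩
    · show ((s - v : S) : Fin m → PadicAlgCl p) ∈ D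
      rw [hd']; exact hd
    · show π (s - v) = y
      rw [map_sub, hs, (show π v = 0 from hv), sub_zero]
  let e := LinearEquiv.ofBijective (π.domRestrict (D.comap S.subtype)) ⟨hinj, hsurj⟩
  let ψ : (Fin n → PadicAlgCl p) →ₗ[PadicAlgCl p] (Fin m → PadicAlgCl p) :=
    S.subtype ∘ₗ (D.comap S.subtype).subtype ∘ₗ e.symm.toLinearMap
  have hψ1 : ∀ y, ∃ hy : ψ y ∈ S, ψ y ∈ D ∧ π ⟨ψ y, hy⟩ = y := by
    intro y
    refine ⟨(e.symm y).1.2, (e.symm y).2, ?_⟩
    exact e.apply_symm_apply y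
  have hψ2 : ∀ (u : Fin m → PadicAlgCl p) (hu : u ∈ S), u ∈ D → ψ (π ⟨u, hu⟩) = u := by
    intro u hu huD
    have : e ⟨⟨u, hu⟩, huD⟩ = π ⟨u, hu⟩ := rfl
    show (((e.symm (π ⟨u, hu⟩)) : S) : Fin m → PadicAlgCl p) = u
    rw [← this, e.symm_apply_apply]
  refine ⟨LinearMap.toMatrix' ψ, ?_, ?_⟩
  · intro y hy
    rw [LinearMap.toMatrix'_mulVec] at hy
    obtain ⟨h1, -, h3⟩ := hψ1 y
    rw [← h3]
    have : (⟨ψ y, h1⟩ : S) = 0 := Subtype.ext hy
    rw [this, map_zero]
  · intro g hg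
    apply Matrix.toLin'.injective
    apply LinearMap.ext
    intro y
    rw [Matrix.toLin'_apply, Matrix.toLin'_apply, ← Matrix.mulVec_mulVec, ← Matrix.mulVec_mulVec,
      LinearMap.toMatrix'_mulVec, LinearMap.toMatrix'_mulVec]
    obtain ⟨h1, h2, h3⟩ := hψ1 y
    obtain ⟨k1, k2⟩ := hS g hg ⟨ψ y, h1⟩
    have k3 : (mat θ g).mulVec (ψ y) ∈ D := hD g hg _ h2
    rw [h3] at k2
    rw [← k2]
    exact (hψ2 _ k1 k3).symm

end Pool.Agent.H73.FF
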