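import Pool.Agent.H73.FF.Abel

/-!
# General Galois extensions: tensor products
-/

set_option autoImplicit false

namespace Pool.Agent.H73.FF

variable {K : Type} [Field K] {p : ℕ} [Fact p.Prime] {n m : ℕ}

/-- Schur's lemma -/
theorem schur (L : IntermediateField K (SeparableClosure K)) (ρ : Rep K p n)
    (hirr : IrreducibleOver L ρ) (φ : (Fin n → PadicAlgCl p) →ₗ[PadicAlgCl p]
      (Fin n → PadicAlgCl p))
    (hφ : ∀ g ∈ L.fixingSubgroup, ∀ u, φ ((mat ρ g).mulVec u) = (mat ρ g).mulVec (φ u)) :
    ∃ c : PadicAlgCl p, ∀ u, φ u = c • u := by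
  haveI : Nonempty (Fin n) := ⟨⟨0, hirr.1⟩⟩
  obtain ⟨c, hc⟩ := Module.End.exists_eigenvalue φ
  obtain ⟨w, hw⟩ := hc.exists_hasEigenvector
  let S : Submodule (PadicAlgCl p) (Fin n → PadicAlgCl p) :=
    { carrier := {u | φ u = c • u}
      zero_mem' := by
        show φ 0 = c • (0 : Fin n → PadicAlgCl p)
        rw [map_zero, smul_zero]
      add_mem' := fun {a b} ha hb => by
        show φ (a + b) = c • (a + b)
        rw [map_add, (show φ a = c • a from ha), (show φ b = c • b from hb), smul_add]
      smul_mem' := fun d a ha => by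
        show φ (d • a) = c • d • a
        rw [map_smul, (show φ a = c • a from ha), smul_comm] }
  rcases hirr.2 S (by
    intro g hg u hu
    show φ ((mat ρ g).mulVec u) = c • (mat ρ g).mulVec u
    rw [hφ g hg u, (show φ u = c • u from hu), Matrix.mulVec_smul]) with h0 | h0
  · exfalso
    apply hw.2
    have : w ∈ S := hw.apply_eq_smul
    rw [h0] at this
    exact (Submodule.mem_bot _).mp this
  · refine ⟨c, fun u => ?_⟩
    have : u ∈ S := by rw [h0]; exact Submodule.mem_top
    exact this

theorem eval_injective (L : IntermediateField K (SeparableClosure K)) (ρ : Rep K p n)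
    (θ : Rep K p m) (hirr : IrreducibleOver L ρ) {k : ℕ}
    (b : Fin k → Matrix (Fin m) (Fin n) (PadicAlgCl p))
    (hb : ∀ j, ∀ g ∈ L.fixingSubgroup, mat θ g * b j = b j * mat ρ g)
    (hli : LinearIndependent (PadicAlgCl p) b)
    (z : Fin k → (Fin n → PadicAlgCl p)) (hz : ∑ j, (b j).mulVec (z j) = 0) : z = 0 := by
  classical
  by_contra hzne
  let R : Submodule (PadicAlgCl p) (Fin k → (Fin n → PadicAlgCl p)) :=
    { carrier := {z | ∑ j, (b j).mulVec (z j) = 0}
      zero_mem' := by
        show ∑ j, (b j).mulVec ((0 : Fin k → (Fin n → PadicAlgCl p)) j) = 0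
        exact Finset.sum_eq_zero (fun j _ => Matrix.mulVec_zero _)
      add_mem' := fun {x y} hx hy => by
        show ∑ j, (b j).mulVec ((x + y) j) = 0
        have e : ∀ j, (b j).mulVec ((x + y) j) = (b j).mulVec (x j) + (b j).mulVec (y j) :=
          fun j => by rw [Pi.add_apply, Matrix.mulVec_add]
        rw [Finset.sum_congr rfl (fun j _ => e j), Finset.sum_add_distrib,
          (show ∑ j, (b j).mulVec (x j) = 0 from hx),
          (show ∑ j, (b j).mulVec (y j) = 0 from hy), add_zero]
      smul_mem' := fun d x hx => by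
        show ∑ j, (b j).mulVec ((d • x) j) = 0
        have e : ∀ j, (b j).mulVec ((d • x) j) = d • (b j).mulVec (x j) :=
          fun j => by rw [Pi.smul_apply, Matrix.mulVec_smul]
        rw [Finset.sum_congr rfl (fun j _ => e j), ← Finset.smul_sum,
          (show ∑ j, (b j).mulVec (x j) = 0 from hx), smul_zero] }
  have hRs : ∀ g ∈ L.fixingSubgroup, ∀ x ∈ R, (fun j => (mat ρ g).mulVec (x j)) ∈ R := by
    intro g hg x hx
    show ∑ j, (b j).mulVec ((mat ρ g).mulVec (x j)) = 0
    have e : ∀ j, (b j).mulVec ((mat ρ g).mulVec (x j)) =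
        (mat θ g).mulVec ((b j).mulVec (x j)) := by
      intro j
      rw [Matrix.mulVec_mulVec, ← hb j g hg, Matrix.mulVec_mulVec]
    rw [Finset.sum_congr rfl (fun j _ => e j), ← Matrix.mulVec_sum,
      (show ∑ j, (b j).mulVec (x j) = 0 from hx), Matrix.mulVec_zero]
  -- a minimal stable subspace
  have hex : ∃ d : ℕ, ∃ W : Submodule (PadicAlgCl p) (Fin k → (Fin n → PadicAlgCl p)),
      W ≤ R ∧ W ≠ ⊥ ∧ (∀ g ∈ L.fixingSubgroup, ∀ x ∈ W, (fun j => (mat ρ g).mulVec (x j)) ∈ W) ∧
      Module.finrank (PadicAlgCl p) W = d :=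
    ⟨_, R, le_rfl, fun hbot => hzne ((Submodule.mem_bot _).mp (hbot ▸ (show z ∈ R from hz))),
      hRs, rfl⟩
  obtain ⟨W, hWR, hW0, hWs, hWd⟩ := Nat.find_spec hex
  have hmin := fun d => Nat.find_min (m := d) hex
  obtain ⟨x, hxW, hx0⟩ := Submodule.exists_mem_ne_zero_of_ne_bot hW0
  obtain ⟨j, hj⟩ : ∃ j, x j ≠ 0 := by
    by_contra hcon
    push Not at hcon
    exact hx0 (funext hcon)
  -- the projection to the `j`-th coordinate is injective on `W`
  have hker : ∀ y ∈ W, y j = 0 → y = 0 := by
    let Z : Submodule (PadicAlgCl p) (Fin k → (Fin n → PadicAlgCl p)) :=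
      { carrier := {y | y ∈ W ∧ y j = 0}
        zero_mem' := ⟨W.zero_mem, rfl⟩
        add_mem' := fun {a b} ha hb => ⟨W.add_mem ha.1 hb.1, by
          rw [Pi.add_apply, ha.2, hb.2, add_zero]⟩
        smul_mem' := fun d a ha => ⟨W.smul_mem d ha.1, by
          rw [Pi.smul_apply, ha.2, smul_zero]⟩ }
    have hZW : Z ≤ W := fun y hy => hy.1
    by_contra hcon
    push Not at hcon
    obtain ⟨y, hyW, hyj, hy0⟩ := hcon
    have hZ0 : Z ≠ ⊥ := by
      intro hbot
      have : y ∈ Z := ⟨hyW, hyj⟩
      rw [hbot] at this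
      exact hy0 ((Submodule.mem_bot _).mp this)
    have hZlt : Z < W := by
      refine lt_of_le_of_ne hZW ?_
      intro e
      have : x ∈ Z := by rw [e]; exact hxW
      exact hj this.2
    have h1 := Submodule.finrank_lt_finrank_of_lt hZlt
    rw [hWd] at h1
    refine hmin _ h1 ⟨Z, hZW.trans hWR, hZ0, ?_, rfl⟩
    intro g hg a ha
    refine ⟨hWs g hg a ha.1, ?_⟩
    show (mat ρ g).mulVec (a j) = 0
    rw [ha.2, Matrix.mulVec_zero]
  let φ : W →ₗ[PadicAlgCl p] (Fin n → PadicAlgCl p) := LinearMap.proj j ∘ₗ W.subtype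
  have hinj : Function.Injective φ := by
    intro u v huv
    have h1 : (u.1 - v.1) j = 0 := by
      rw [Pi.sub_apply]
      exact sub_eq_zero.mpr huv
    have h2 := hker (u.1 - v.1) (W.sub_mem u.2 v.2) h1
    exact Subtype.ext (sub_eq_zero.mp h2)
  have hsurj : Function.Surjective φ := by
    rw [← LinearMap.range_eq_top]
    rcases hirr.2 (LinearMap.range φ) (by
      rintro g hg u ⟨w, rfl⟩
      exact ⟨⟨_, hWs g hg w.1 w.2⟩, rfl⟩) with h0 | h0
    · exfalso
      apply hj
      have : φ ⟨x, hxW⟩ ∈ LinearMap.range φ := ⟨_, rfl⟩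
      rw [h0] at this
      exact (Submodule.mem_bot _).mp this
    · exact h0
  let e := LinearEquiv.ofBijective φ ⟨hinj, hsurj⟩
  have he : ∀ g ∈ L.fixingSubgroup, ∀ u, ((e.symm ((mat ρ g).mulVec u)).1) =
      fun i => (mat ρ g).mulVec ((e.symm u).1 i) := by
    intro g hg u
    have h1 : e ⟨_, hWs g hg (e.symm u).1 (e.symm u).2⟩ = (mat ρ g).mulVec u := by
      show (mat ρ g).mulVec ((e.symm u).1 j) = (mat ρ g).mulVec u
      have : (e.symm u).1 j = u := e.apply_symm_apply u
      rw [this]
    rw [← h1, e.symm_apply_apply]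
  have hsc : ∀ i, ∃ c : PadicAlgCl p, ∀ u, (e.symm u).1 i = c • u := by
    intro i
    exact schur L ρ hirr (LinearMap.proj i ∘ₗ W.subtype ∘ₗ e.symm.toLinearMap) (by
      intro g hg u
      exact congrFun (he g hg u) i)
  choose c hc using hsc
  have hcj : c j = 1 := by
    have h1 := hc j (x j)
    have h2 : (e.symm (x j)).1 j = x j := e.apply_symm_apply (x j)
    rw [h2] at h1
    have h3 : (1 - c j) • x j = 0 := by rw [sub_smul, one_smul, ← h1, sub_self]
    rcases smul_eq_zero.mp h3 with h | h
    · exact (sub_eq_zero.mp h).symm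
    · exact absurd h hj
  have hsum : ∑ i, c i • b i = 0 := by
    apply Matrix.toLin'.injective
    apply LinearMap.ext
    intro u
    rw [Matrix.toLin'_apply, map_zero, LinearMap.zero_apply, Matrix.sum_mulVec]
    have h1 : ∑ i, (b i).mulVec ((e.symm u).1 i) = 0 := hWR (e.symm u).2
    rw [← h1]
    apply Finset.sum_congr rfl
    intro i _
    rw [hc i u, Matrix.smul_mulVec, Matrix.mulVec_smul]
  have := (Fintype.linearIndependent_iff.mp hli) c hsum j
  rw [hcj] at this
  exact one_ne_zero this

theorem tensor_sub (ρ : Rep K p n) (θ : Rep K p m) (hρ : Continuous ρ) (hθ : Continuous θ)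
    (L : IntermediateField K (SeparableClosure K)) (hnorm : (L.fixingSubgroup).Normal)
    (hirr : IrreducibleOver L ρ) (h : SubOver L ρ θ) :
    ∃ (k : ℕ) (τ : Rep K p k), 0 < k ∧ Continuous τ ∧ (∀ g ∈ L.fixingSubgroup, τ g = 1) ∧
      TensorSub ρ τ θ := by
  classical
  obtain ⟨X0, hX0, hL⟩ := h
  have hne : X0 ≠ 0 := by
    intro e
    have hn := hirr.1
    have := hX0 (Pi.single ⟨0, hn⟩ 1) (by rw [e, Matrix.zero_mulVec])
    have h1 := congrFun this ⟨0, hn⟩
    rw [Pi.single_eq_same] at h1
    exact one_ne_zero h1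
  have hfix : ∀ (X : Matrix (Fin m) (Fin n) (PadicAlgCl p)) (g : GK K),
      act ρ θ g X = X ↔ mat θ g * X = X * mat ρ g := by
    intro X g
    have := act_fix_iff ρ θ g X 1
    rwa [one_smul, one_smul] at this
  let T : Submodule (PadicAlgCl p) (Matrix (Fin m) (Fin n) (PadicAlgCl p)) :=
    { carrier := {X | ∀ h ∈ L.fixingSubgroup, act ρ θ h X = X}
      zero_mem' := fun h _ => map_zero _
      add_mem' := fun {X Y} hX hY h hh => by rw [map_add, hX h hh, hY h hh]
      smul_mem' := fun c X hX h hh => by rw [map_smul, hX h hh] }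
  have hTact : ∀ g, ∀ X ∈ T, act ρ θ g X ∈ T := by
    intro g X hX h hh
    have e : h * g = g * (g⁻¹ * h * g) := by group
    rw [← act_mul, e, act_mul]
    have h1 := hnorm.conj_mem h hh g⁻¹
    rw [inv_inv] at h1
    rw [hX _ h1]
  have hX0T : X0 ∈ T := fun h hh => (hfix X0 h).mpr (hL h hh)
  let b := Module.finBasis (PadicAlgCl p) T
  have hkpos : 0 < Module.finrank (PadicAlgCl p) T := by
    haveI : Nontrivial T := ⟨⟨⟨X0, hX0T⟩, 0, fun e => hne (congrArg Subtype.val e)⟩⟩
    exact Module.finrank_pos
  let A : GK K → (T →ₗ[PadicAlgCl p] T) := fun g => (act ρ θ g).restrict (hTact g)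
  have hA1 : A 1 = LinearMap.id := by
    apply LinearMap.ext
    intro X
    exact Subtype.ext (act_one ρ θ X.1)
  have hAm : ∀ g h, A (g * h) = (A g).comp (A h) := by
    intro g h
    apply LinearMap.ext
    intro X
    exact Subtype.ext (act_mul ρ θ g h X.1)
  let B : GK K → Matrix (Fin (Module.finrank (PadicAlgCl p) T))
      (Fin (Module.finrank (PadicAlgCl p) T)) (PadicAlgCl p) := fun g => LinearMap.toMatrix b b (A g)
  have hB1 : B 1 = 1 := by
    show LinearMap.toMatrix b b (A 1) = 1
    rw [hA1, LinearMap.toMatrix_id]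
  have hBm : ∀ g h, B (g * h) = B g * B h := by
    intro g h
    show LinearMap.toMatrix b b (A (g * h)) = _
    rw [hAm, LinearMap.toMatrix_comp b b b]
  let τ : Rep K p (Module.finrank (PadicAlgCl p) T) :=
    { toFun := fun g =>
        { val := B g
          inv := B g⁻¹
          val_inv := by rw [← hBm, mul_inv_cancel, hB1]
          inv_val := by rw [← hBm, inv_mul_cancel, hB1] }
      map_one' := by ext1; exact hB1
      map_mul' := fun g h => by ext1; exact hBm g h }
  have hBcont : Continuous B := by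
    apply continuous_matrix
    intro i j
    obtain ⟨ℓ, hℓ⟩ := LinearMap.exists_extend (b.coord i)
    have e : (fun g => B g i j) = fun g => ℓ (mat θ g * (b j).1 * mat ρ g⁻¹) := by
      funext g
      show LinearMap.toMatrix b b (A g) i j = _
      rw [LinearMap.toMatrix_apply]
      have h1 : ℓ ((A g (b j)).1) = b.coord i (A g (b j)) := by
        rw [← hℓ]; rfl
      rw [← b.coord_apply, ← h1]
      rfl
    rw [e]
    have hcont : Continuous fun g => mat θ g * (b j).1 * mat ρ g⁻¹ :=
      ((continuous_mat hθ).matrix_mul continuous_const).matrix_mul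
        ((continuous_mat hρ).comp continuous_inv)
    have hl : ∀ Y : Matrix (Fin m) (Fin n) (PadicAlgCl p),
        ℓ Y = ∑ x, ∑ y, Y x y * ℓ (Matrix.single x y 1) := by
      intro Y
      conv_lhs => rw [Matrix.matrix_eq_sum_single Y]
      rw [map_sum]
      apply Finset.sum_congr rfl
      intro x _
      rw [map_sum]
      apply Finset.sum_congr rfl
      intro y _
      have : Matrix.single x y (Y x y) = Y x y • Matrix.single x y (1 : PadicAlgCl p) := by
        rw [Matrix.smul_single, smul_eq_mul, mul_one]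
      rw [this, map_smul, smul_eq_mul]
    have e2 : (fun g => ℓ (mat θ g * (b j).1 * mat ρ g⁻¹)) = fun g =>
        ∑ x, ∑ y, (mat θ g * (b j).1 * mat ρ g⁻¹) x y * ℓ (Matrix.single x y 1) := by
      funext g; exact hl _
    rw [e2]
    exact continuous_finsetSum _ (fun x _ => continuous_finsetSum _ (fun y _ =>
      (hcont.matrix_elem x y).mul continuous_const))
  refine ⟨_, τ, hkpos, ?_, ?_, ?_⟩
  · rw [Units.continuous_iff]
    exact ⟨hBcont, hBcont.comp continuous_inv⟩
  · intro g hg
    ext1
    show B g = 1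
    show LinearMap.toMatrix b b (A g) = 1
    have : A g = LinearMap.id := by
      apply LinearMap.ext
      intro X
      exact Subtype.ext (X.2 g hg)
    rw [this, LinearMap.toMatrix_id]
  · refine ⟨Matrix.of fun c x => (b x.2).1 c x.1, ?_, ?_⟩
    · intro z hz
      have hli : LinearIndependent (PadicAlgCl p) (fun j => (b j).1) :=
        b.linearIndependent.map' T.subtype (Submodule.ker_subtype T)
      have key := eval_injective L ρ θ hirr (fun j => (b j).1)
        (fun j g hg => (hfix _ g).mp ((b j).2 g hg)) hli (fun j a => z (a, j)) (by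
          funext c
          have h1 := congrFun hz c
          rw [Finset.sum_apply, Pi.zero_apply]
          rw [Pi.zero_apply] at h1
          rw [← h1]
          simp only [Matrix.mulVec, dotProduct, Matrix.of_apply]
          rw [Fintype.sum_prod_type, Finset.sum_comm])
      funext x
      exact congrFun (congrFun key x.2) x.1
    · intro g
      have hact : ∀ j, act ρ θ g (b j).1 = ∑ i, B g i j • (b i).1 := by
        intro j
        have h1 : A g (b j) = ∑ i, B g i j • b i := by
          rw [← b.sum_repr (A g (b j))]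
          apply Finset.sum_congr rfl
          intro i _
          show _ = LinearMap.toMatrix b b (A g) i j • b i
          rw [LinearMap.toMatrix_apply]
        have h2 := congrArg Subtype.val h1
        rw [Submodule.coe_sum] at h2
        exact h2
      have hact2 : ∀ j, mat θ g * (b j).1 = ∑ i, B g i j • ((b i).1 * mat ρ g) := by
        intro j
        have h1 := congrArg (fun Y => Y * mat ρ g) (hact j)
        simp only [act_apply, Matrix.mul_assoc, mat_inv_mul, Matrix.mul_one, Matrix.sum_mul,
          Matrix.smul_mul] at h1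
        exact h1
      ext c x
      have h1 := congrFun (congrFun (hact2 x.2) c) x.1
      rw [Matrix.mul_apply, Matrix.sum_apply] at h1
      rw [Matrix.mul_apply, Matrix.mul_apply]
      refine h1.trans ?_
      rw [Fintype.sum_prod_type, Finset.sum_comm]
      apply Finset.sum_congr rfl
      intro i _
      rw [Matrix.smul_apply, smul_eq_mul, Matrix.mul_apply, Finset.mul_sum]
      apply Finset.sum_congr rfl
      intro a _
      show B g i x.2 * ((b i).1 c a * mat ρ g a x.1) =
        (b i).1 c a * (mat ρ g a x.1 * mat τ g i x.2)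
      have : mat τ g i x.2 = B g i x.2 := rfl
      rw [this]
      ring

end Pool.Agent.H73.FF
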