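import Pool.Agent.H73.FF.Tors
import Pool.Agent.H73.FF.Cliff
import Pool.Agent.H73.FF.Tens

/-!
# Geometric origin over infinite extensions: assembly
-/

set_option autoImplicit false

namespace Pool.Agent.H73.FF

variable {K : Type} [Field K] {p : ℕ} [Fact p.Prime] {n m : ℕ}

theorem sub_of_tensor (ρ : Rep K p n) (θ : Rep K p m)
    (L : IntermediateField K (SeparableClosure K)) {k : ℕ} (hk : 0 < k) (τ : Rep K p k)
    (hτ : ∀ g ∈ L.fixingSubgroup, τ g = 1) (h : TensorSub ρ τ θ) : SubOver L ρ θ := by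
  classical
  obtain ⟨J, hJ, hg⟩ := h
  refine ⟨Matrix.of fun c a => J c (a, ⟨0, hk⟩), ?_, ?_⟩
  · intro y hy
    have h1 := hJ (fun x => if x.2 = ⟨0, hk⟩ then y x.1 else 0) (by
      funext c
      have h2 := congrFun hy c
      rw [← h2]
      simp only [Matrix.mulVec, dotProduct, Matrix.of_apply]
      rw [Fintype.sum_prod_type]
      apply Finset.sum_congr rfl
      intro a _
      simp)
    funext a
    have h2 := congrFun h1 (a, ⟨0, hk⟩)
    simpa using h2
  · intro g hgL
    have h1 := hg g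
    have h2 : mat τ g = 1 := by
      unfold mat
      rw [hτ g hgL, Units.val_one]
    ext c a
    have h3 := congrFun (congrFun h1 c) (a, ⟨0, hk⟩)
    rw [Matrix.mul_apply, Matrix.mul_apply, Fintype.sum_prod_type] at h3
    rw [Matrix.mul_apply, Matrix.mul_apply]
    refine Eq.trans h3 ?_
    apply Finset.sum_congr rfl
    intro a' _
    rw [h2]
    simp only [Matrix.kroneckerMap_apply, Matrix.of_apply, Matrix.one_apply]
    simp

theorem sub_of_twist (ρ : Rep K p n) (θ : Rep K p m)
    (L : IntermediateField K (SeparableClosure K)) (χ : GK K →* (PadicAlgCl p)ˣ)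
    (hχ : ∀ g ∈ L.fixingSubgroup, χ g = 1) (X : Matrix (Fin m) (Fin n) (PadicAlgCl p))
    (hX : ∀ y, X.mulVec y = 0 → y = 0)
    (h : ∀ g, mat θ g * X = (χ g : PadicAlgCl p) • (X * mat ρ g)) : SubOver L ρ θ := by
  refine ⟨X, hX, fun g hg => ?_⟩
  rw [h g, hχ g hg, Units.val_one, one_smul]

end Pool.Agent.H73.FF
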