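import Pool.Agent.H73.FF.Kol
import Pool.Agent.H73.FF.Main

/-!
# Solvable extensions: twists over a finite subextension
-/

set_option autoImplicit false

namespace Pool.Agent.H73.FF

variable {K : Type} [Field K] {p : ℕ} [Fact p.Prime] {n m : ℕ}

theorem derived_le (G : Type) [Group G] (i : ℕ) : derivedSeries G (i + 1) ≤ derivedSeries G i := by
  rw [derivedSeries_succ]
  exact Subgroup.commutator_le_right _ _

theorem eigen_solvable (ρ : Rep K p n) (θ : Rep K p m) (hρ : Continuous ρ) (hθ : Continuous θ)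
    (L : IntermediateField K (SeparableClosure K)) (hnorm : (L.fixingSubgroup).Normal)
    (d : ℕ) (hd : derivedSeries (GK K) d ≤ L.fixingSubgroup)
    (h : ∃ X : Matrix (Fin m) (Fin n) (PadicAlgCl p), X ≠ 0 ∧
      ∀ g ∈ L.fixingSubgroup, mat θ g * X = X * mat ρ g) :
    ∃ M : IntermediateField K (SeparableClosure K), M ≤ L ∧ FiniteDimensional K M ∧
      ∃ χ : M.fixingSubgroup →* (PadicAlgCl p)ˣ,
        Continuous (fun g => (χ g : PadicAlgCl p)) ∧
        (∀ g : M.fixingSubgroup, g.1 ∈ L.fixingSubgroup → χ g = 1) ∧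
        ∃ X : Matrix (Fin m) (Fin n) (PadicAlgCl p), X ≠ 0 ∧
          ∀ g : M.fixingSubgroup, mat θ g.1 * X = (χ g : PadicAlgCl p) • (X * mat ρ g.1) := by
  classical
  obtain ⟨X0, hne, hL⟩ := h
  have hfix : ∀ (X : Matrix (Fin m) (Fin n) (PadicAlgCl p)) (g : GK K),
      act ρ θ g X = X ↔ mat θ g * X = X * mat ρ g := by
    intro X g
    have := act_fix_iff ρ θ g X 1
    rwa [one_smul, one_smul] at this
  let T : Submodule (PadicAlgCl p) (Matrix (Fin m) (Fin n) (PadicAlgCl p)) :=
    { carrier := {X | ∀ h ∈ L.fixingSubgroup, act ρ θ h X = X}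
      zero_mem' := fun h _ => map_zero _
      add_mem' := fun {X Y} hX hY h hh => by rw [map_add, hX h hh, hY h hh]
      smul_mem' := fun c X hX h hh => by rw [map_smul, hX h hh] }
  have hTact : ∀ g, ∀ X ∈ T, act ρ θ g X ∈ T := by
    intro g X hX h hh
    have e : h * g = g * (g⁻¹ * h * g) := by group
    rw [← act_mul, e, act_mul]
    have h1 := hnorm.conj_mem h hh g⁻¹
    rw [inv_inv] at h1
    rw [hX _ h1]
  have hX0T : X0 ∈ T := fun h hh => (hfix X0 h).mpr (hL h hh)
  haveI : Nontrivial T := ⟨⟨⟨X0, hX0T⟩, 0, fun e => hne (congrArg Subtype.val e)⟩⟩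
  let f : GK K →* Module.End (PadicAlgCl p) T :=
    { toFun := fun g => (act ρ θ g).restrict (hTact g)
      map_one' := by
        apply LinearMap.ext
        intro X
        exact Subtype.ext (act_one ρ θ X.1)
      map_mul' := fun g h => by
        apply LinearMap.ext
        intro X
        exact Subtype.ext (act_mul ρ θ g h X.1) }
  have hf : ∀ (g : GK K) (x : T), (f g x).1 = act ρ θ g x.1 := fun g x => rfl
  have hcont : ∀ (φ : Module.Dual (PadicAlgCl p) T) (x : T), Continuous fun g => φ (f g x) := by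
    intro φ x
    obtain ⟨ℓ, hℓ⟩ := LinearMap.exists_extend φ
    have e : (fun g => φ (f g x)) = fun g => ℓ (mat θ g * x.1 * mat ρ g⁻¹) := by
      funext g
      rw [← hℓ]
      rfl
    rw [e]
    have hc : Continuous fun g => mat θ g * x.1 * mat ρ g⁻¹ :=
      ((continuous_mat hθ).matrix_mul continuous_const).matrix_mul
        ((continuous_mat hρ).comp continuous_inv)
    have hl : ∀ Y : Matrix (Fin m) (Fin n) (PadicAlgCl p),
        ℓ Y = ∑ x, ∑ y, Y x y * ℓ (Matrix.single x y 1) := by
      intro Y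
      conv_lhs => rw [Matrix.matrix_eq_sum_single Y]
      rw [map_sum]
      apply Finset.sum_congr rfl
      intro x _
      rw [map_sum]
      apply Finset.sum_congr rfl
      intro y _
      have : Matrix.single x y (Y x y) = Y x y • Matrix.single x y (1 : PadicAlgCl p) := by
        rw [Matrix.smul_single, smul_eq_mul, mul_one]
      rw [this, map_smul, smul_eq_mul]
    have e2 : (fun g => ℓ (mat θ g * x.1 * mat ρ g⁻¹)) = fun g =>
        ∑ i, ∑ j, (mat θ g * x.1 * mat ρ g⁻¹) i j * ℓ (Matrix.single i j 1) := by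
      funext g; exact hl _
    rw [e2]
    exact continuous_finsetSum _ (fun i _ => continuous_finsetSum _ (fun j _ =>
      (hc.matrix_elem i j).mul continuous_const))
  obtain ⟨U, x, hU, hx, hux⟩ := lie_kolchin f hcont d (fun i => derivedSeries (GK K) i)
    (fun i => derived_le (GK K) i)
    (fun i x hx y hy => by
      show x * y * x⁻¹ * y⁻¹ ∈ derivedSeries (GK K) (i + 1)
      rw [derivedSeries_succ, ← commutatorElement_def]
      exact Subgroup.commutator_mem_commutator hx hy)
    (fun g hg => by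
      apply LinearMap.ext
      intro X
      exact Subtype.ext (X.2 g (hd hg)))
  obtain ⟨X, hXdef⟩ : ∃ X, X = x.1 := ⟨_, rfl⟩
  have hX : X ≠ 0 := by
    rw [hXdef]
    exact fun e => hx (Subtype.ext e)
  have hXL : ∀ g ∈ L.fixingSubgroup, act ρ θ g X = X := by
    rw [hXdef]; exact x.2
  have hXU : ∀ u ∈ U, ∃ c : PadicAlgCl p, act ρ θ u X = c • X := by
    intro u hu
    obtain ⟨c, hc⟩ := hux u hu (by rw [derivedSeries_zero]; exact Subgroup.mem_top u)
    refine ⟨c, ?_⟩
    rw [hXdef, ← hf, hc]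
    rfl
  let U' : Subgroup (GK K) :=
    { carrier := {g | ∃ c : PadicAlgCl p, act ρ θ g X = c • X}
      one_mem' := ⟨1, by rw [act_one, one_smul]⟩
      mul_mem' := fun {g h} ⟨c, hc⟩ ⟨e, he⟩ =>
        ⟨e * c, by rw [act_mul, he, map_smul, hc, smul_smul]⟩
      inv_mem' := fun {g} ⟨c, hc⟩ => by
        refine ⟨c⁻¹, ?_⟩
        have h1 : act ρ θ g⁻¹ (act ρ θ g X) = X := by rw [← act_mul, inv_mul_cancel, act_one]
        rw [hc, map_smul] at h1
        have hc0 : c ≠ 0 := by
          intro h0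
          rw [h0, zero_smul] at h1
          exact hX h1.symm
        rw [← h1, map_smul, smul_smul]
        conv_lhs => rw [← one_smul (PadicAlgCl p) (act ρ θ g⁻¹ (act ρ θ g⁻¹ X))]
        have h2 : act ρ θ g⁻¹ (c • act ρ θ g⁻¹ X) = act ρ θ g⁻¹ X := by rw [h1]
        rw [map_smul] at h2
        rw [one_smul]
        rw [inv_mul_cancel₀ hc0, one_smul]
        rw [h2] }
  have hUU' : U ≤ U' := fun u hu => hXU u hu
  have hU'o : IsOpen (U' : Set (GK K)) := Subgroup.isOpen_mono hUU' hU
  have hLU' : L.fixingSubgroup ≤ U' := fun g hg => ⟨1, by rw [hXL g hg, one_smul]⟩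
  obtain ⟨M, hML, hMf, hMU, -⟩ := open_field L U' hU'o hLU'
  have hXM : ∀ g : M.fixingSubgroup, ∃ c : PadicAlgCl p, act ρ θ g.1 X = c • X := by
    intro g
    have h1 : g.1 ∈ U' := by rw [← hMU]; exact g.2
    exact h1
  choose c hc using hXM
  have hmul : ∀ g h, c (g * h) = c g * c h := by
    intro g h
    have e1 := hc (g * h)
    rw [Subgroup.coe_mul, act_mul, hc h, map_smul, hc g, smul_smul] at e1
    have e2 : (c h * c g - c (g * h)) • X = 0 := by rw [sub_smul, e1, sub_self]
    rcases smul_eq_zero.mp e2 with h0 | h0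
    · rw [sub_eq_zero] at h0
      rw [← h0, mul_comm]
    · exact absurd h0 hX
  have hone' : ∀ g : M.fixingSubgroup, act ρ θ g.1 X = X → c g = 1 := by
    intro g hg
    have e1 := hc g
    rw [hg] at e1
    have e2 : (1 - c g) • X = 0 := by rw [sub_smul, one_smul, ← e1, sub_self]
    rcases smul_eq_zero.mp e2 with h0 | h0
    · exact (sub_eq_zero.mp h0).symm
    · exact absurd h0 hX
  have hone : c 1 = 1 := hone' 1 (by rw [Subgroup.coe_one, act_one])
  let χ : M.fixingSubgroup →* (PadicAlgCl p)ˣ :=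
    { toFun := fun g =>
        { val := c g
          inv := c g⁻¹
          val_inv := by rw [← hmul, mul_inv_cancel, hone]
          inv_val := by rw [← hmul, inv_mul_cancel, hone] }
      map_one' := by ext; exact hone
      map_mul' := fun g h => by ext; exact hmul g h }
  refine ⟨M, hML, hMf, χ, ?_, ?_, X, hX, ?_⟩
  · obtain ⟨i, j, hij⟩ : ∃ i j, X i j ≠ 0 := by
      by_contra hcon
      push Not at hcon
      exact hX (by ext i j; exact hcon i j)
    have e : (fun g => ((χ g : (PadicAlgCl p)ˣ) : PadicAlgCl p)) =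
        fun g : M.fixingSubgroup => (mat θ g.1 * X * mat ρ g.1⁻¹) i j / X i j := by
      funext g
      have := congrFun (congrFun (hc g) i) j
      rw [act_apply, Matrix.smul_apply, smul_eq_mul] at this
      rw [this, mul_div_cancel_right₀ _ hij]
      rfl
    rw [e]
    have hcont1 : Continuous fun g => mat θ g * X * mat ρ g⁻¹ :=
      ((continuous_mat hθ).matrix_mul continuous_const).matrix_mul
        ((continuous_mat hρ).comp continuous_inv)
    have hcont2 : Continuous fun g : M.fixingSubgroup => mat θ g.1 * X * mat ρ g.1⁻¹ :=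
      hcont1.comp continuous_subtype_val
    exact (hcont2.matrix_elem i j).div_const _
  · intro g hg
    ext
    exact hone' g (hXL g.1 hg)
  · intro g
    exact (act_fix_iff ρ θ g.1 X (c g)).mp (hc g)

/-- a character of an open subgroup with finite image has an open kernel -/
theorem open_kernel (M L : IntermediateField K (SeparableClosure K)) [FiniteDimensional K M]
    (χ : M.fixingSubgroup →* (PadicAlgCl p)ˣ)
    (hχ : Continuous (fun g => (χ g : PadicAlgCl p)))
    (hL : ∀ g : M.fixingSubgroup, g.1 ∈ L.fixingSubgroup → χ g = 1) (hML : M ≤ L)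
    (N : ℕ) (hN : 0 < N) (hfin : ∀ g, (χ g : PadicAlgCl p) ^ N = 1) :
    ∃ M' : IntermediateField K (SeparableClosure K), M' ≤ L ∧ FiniteDimensional K M' ∧
      M'.fixingSubgroup ≤ M.fixingSubgroup ∧
      ∀ g : M.fixingSubgroup, g.1 ∈ M'.fixingSubgroup → χ g = 1 := by
  classical
  have hset : {c : PadicAlgCl p | c ≠ 1 ∧ c ^ N = 1}.Finite := by
    apply Set.Finite.subset (Multiset.toFinset (Polynomial.nthRoots N (1 : PadicAlgCl p))
      ).finite_toSet
    intro c hc
    simp only [Finset.mem_coe, Multiset.mem_toFinset]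
    exact (Polynomial.mem_nthRoots hN).mpr hc.2
  have hker : IsOpen ((χ.ker : Subgroup M.fixingSubgroup) : Set M.fixingSubgroup) := by
    have h1 := (hset.isClosed.preimage hχ).isOpen_compl
    convert h1 using 1
    ext g
    simp only [SetLike.mem_coe, MonoidHom.mem_ker, Set.mem_compl_iff, Set.mem_preimage,
      Set.mem_setOf_eq, not_and]
    constructor
    · intro hg h2
      exact absurd (by rw [hg, Units.val_one]) h2
    · intro hg
      by_contra hcon
      exact hg (fun e => hcon (Units.ext (by rw [e, Units.val_one]))) (hfin g)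
  have hMo : IsOpen ((M.fixingSubgroup : Subgroup (GK K)) : Set (GK K)) :=
    InfiniteGalois.isOpen_iff_finite M |>.mpr inferInstance
  have hU : IsOpen (((χ.ker).map (M.fixingSubgroup).subtype : Subgroup (GK K)) : Set (GK K)) := by
    rw [Subgroup.coe_map]
    exact hMo.isOpenMap_subtype_val _ hker
  obtain ⟨M', h1, h2, h3, -⟩ := open_field L _ hU (by
    intro g hg
    have hgM : g ∈ M.fixingSubgroup := IntermediateField.fixingSubgroup_antitone hML hg
    exact ⟨⟨g, hgM⟩, hL ⟨g, hgM⟩ hg, rfl⟩)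
  refine ⟨M', h1, h2, ?_, ?_⟩
  · rw [h3]
    rintro _ ⟨x, -, rfl⟩
    exact x.2
  · intro g hg
    rw [h3] at hg
    obtain ⟨x, hx, hxg⟩ := hg
    have : x = g := Subtype.ext hxg
    rw [← this]
    exact hx

theorem inj_of_irr (ρ : Rep K p n) (θ : Rep K p m)
    (M : IntermediateField K (SeparableClosure K)) (hirr : IrreducibleOver M ρ)
    (χ : M.fixingSubgroup →* (PadicAlgCl p)ˣ)
    (X : Matrix (Fin m) (Fin n) (PadicAlgCl p)) (hX : X ≠ 0)
    (hχ : ∀ g : M.fixingSubgroup, mat θ g.1 * X = (χ g : PadicAlgCl p) • (X * mat ρ g.1)) :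
    ∀ y, X.mulVec y = 0 → y = 0 := by
  rcases hirr.2 (LinearMap.ker (Matrix.mulVecLin X)) (by
    intro g hgM u hu
    rw [LinearMap.mem_ker, Matrix.mulVecLin_apply] at hu ⊢
    have h1 : (mat θ g * X).mulVec u = 0 := by
      rw [← Matrix.mulVec_mulVec, hu, Matrix.mulVec_zero]
    rw [hχ ⟨g, hgM⟩, Matrix.smul_mulVec, ← Matrix.mulVec_mulVec] at h1
    exact (smul_eq_zero.mp h1).resolve_left (χ ⟨g, hgM⟩).ne_zero) with h0 | h0
  · intro y hy
    have : y ∈ LinearMap.ker (Matrix.mulVecLin X) := by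
      rw [LinearMap.mem_ker, Matrix.mulVecLin_apply]; exact hy
    rw [h0] at this
    exact (Submodule.mem_bot _).mp this
  · exfalso
    apply hX
    ext i j
    have : (Pi.single j 1 : Fin n → PadicAlgCl p) ∈ LinearMap.ker (Matrix.mulVecLin X) := by
      rw [h0]; exact Submodule.mem_top
    rw [LinearMap.mem_ker, Matrix.mulVecLin_apply, Matrix.mulVec_single_one] at this
    exact congrFun this i

/-- Frobenius reciprocity with a twist: the irreducible `ρ` embeds into the induced
representation. -/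
theorem induced_of_eigen (ρ : Rep K p n) (θ : Rep K p m) (hirr : Irreducible ρ)
    (M : IntermediateField K (SeparableClosure K))
    (χ : M.fixingSubgroup →* (PadicAlgCl p)ˣ)
    (X : Matrix (Fin m) (Fin n) (PadicAlgCl p)) (hX : X ≠ 0)
    (hχ : ∀ g : M.fixingSubgroup, mat θ g.1 * X = (χ g : PadicAlgCl p) • (X * mat ρ g.1)) :
    ∃ Φ : (Fin n → PadicAlgCl p) →ₗ[PadicAlgCl p] (GK K → Fin m → PadicAlgCl p),
      Function.Injective Φ ∧ ∀ v,
        (∀ (u : M.fixingSubgroup) (g : GK K),
          Φ v (u.1 * g) = ((χ⁻¹ u : (PadicAlgCl p)ˣ) : PadicAlgCl p) •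
            (mat θ u.1).mulVec (Φ v g)) ∧
        ∀ x g, Φ ((mat ρ x).mulVec v) g = Φ v (g * x) := by
  let Φ : (Fin n → PadicAlgCl p) →ₗ[PadicAlgCl p] (GK K → Fin m → PadicAlgCl p) :=
    { toFun := fun v g => X.mulVec ((mat ρ g).mulVec v)
      map_add' := fun v w => by
        funext g
        show _ = X.mulVec ((mat ρ g).mulVec v) + X.mulVec ((mat ρ g).mulVec w)
        rw [Matrix.mulVec_add, Matrix.mulVec_add]
      map_smul' := fun c v => by
        funext g
        show _ = c • X.mulVec ((mat ρ g).mulVec v)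
        rw [Matrix.mulVec_smul, Matrix.mulVec_smul] }
  have hΦ : ∀ v g, Φ v g = X.mulVec ((mat ρ g).mulVec v) := fun v g => rfl
  refine ⟨Φ, ?_, ?_⟩
  · rw [← LinearMap.ker_eq_bot]
    rcases hirr.2 (LinearMap.ker Φ) (by
      intro g u hu
      rw [LinearMap.mem_ker] at hu ⊢
      funext h
      have h1 := congrFun hu (h * g)
      rw [hΦ, mat_mul, ← Matrix.mulVec_mulVec] at h1
      rw [hΦ]
      exact h1) with h0 | h0
    · exact h0
    · exfalso
      apply hX
      ext i j
      have : (Pi.single j 1 : Fin n → PadicAlgCl p) ∈ LinearMap.ker Φ := by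
        rw [h0]; exact Submodule.mem_top
      rw [LinearMap.mem_ker] at this
      have h1 := congrFun this 1
      rw [hΦ, mat_one, Matrix.one_mulVec, Matrix.mulVec_single_one] at h1
      exact congrFun h1 i
  · intro v
    constructor
    · intro u g
      rw [hΦ, hΦ, mat_mul, ← Matrix.mulVec_mulVec]
      have h1 := congrArg (fun Y => Y.mulVec ((mat ρ g).mulVec v)) (hχ u)
      simp only [← Matrix.mulVec_mulVec, Matrix.smul_mulVec] at h1
      rw [h1, smul_smul, MonoidHom.inv_apply, Units.inv_mul, one_smul]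
    · intro x g
      rw [hΦ, hΦ, mat_mul, ← Matrix.mulVec_mulVec]

/-- the converse: evaluation at `1` -/
theorem eigen_of_induced (ρ : Rep K p n) (θ : Rep K p m) (hn : 0 < n)
    (L M : IntermediateField K (SeparableClosure K)) (hML : M ≤ L)
    (χ : M.fixingSubgroup →* (PadicAlgCl p)ˣ)
    (hL : ∀ g : M.fixingSubgroup, g.1 ∈ L.fixingSubgroup → χ g = 1)
    (Φ : (Fin n → PadicAlgCl p) →ₗ[PadicAlgCl p] (GK K → Fin m → PadicAlgCl p))
    (hinj : Function.Injective Φ)
    (h : ∀ v, (∀ (u : M.fixingSubgroup) (g : GK K),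
          Φ v (u.1 * g) = (χ u : PadicAlgCl p) • (mat θ u.1).mulVec (Φ v g)) ∧
        ∀ x g, Φ ((mat ρ x).mulVec v) g = Φ v (g * x)) :
    ∃ X : Matrix (Fin m) (Fin n) (PadicAlgCl p), X ≠ 0 ∧
      ∀ g ∈ L.fixingSubgroup, mat θ g * X = X * mat ρ g := by
  classical
  let E : (Fin n → PadicAlgCl p) →ₗ[PadicAlgCl p] (Fin m → PadicAlgCl p) :=
    (LinearMap.proj (1 : GK K)).comp Φ
  have hE : ∀ v, (LinearMap.toMatrix' E).mulVec v = Φ v 1 := by
    intro v
    rw [LinearMap.toMatrix'_mulVec]
    rfl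
  refine ⟨LinearMap.toMatrix' E, ?_, ?_⟩
  · intro h0
    have h1 : Φ (Pi.single ⟨0, hn⟩ 1) = Φ 0 := by
      funext g
      have h2 := (h (Pi.single ⟨0, hn⟩ 1)).2 g 1
      rw [← hE, h0, Matrix.zero_mulVec, one_mul] at h2
      rw [← h2, map_zero]
      rfl
    have h3 := congrFun (hinj h1) ⟨0, hn⟩
    rw [Pi.single_eq_same] at h3
    exact one_ne_zero h3
  · intro g hg
    have hgM : g ∈ M.fixingSubgroup := IntermediateField.fixingSubgroup_antitone hML hg
    apply Matrix.toLin'.injective
    apply LinearMap.ext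
    intro v
    rw [Matrix.toLin'_apply, Matrix.toLin'_apply, ← Matrix.mulVec_mulVec,
      ← Matrix.mulVec_mulVec, hE, hE, (h v).2 g 1, one_mul]
    have h1 := (h v).1 ⟨g, hgM⟩ 1
    rw [mul_one, hL ⟨g, hgM⟩ hg, Units.val_one, one_smul] at h1
    exact h1.symm

end Pool.Agent.H73.FF
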