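import Mathlib

/-!
# Definitions for the statement

`K` is a field and `ℓ` a prime number; all representations are representations of the Galois group
`G_K` of a separable closure of `K` over `ℚ_ℓ-bar`, in matrix form.
-/

set_option autoImplicit false

namespace Pool.Agent.H73.FF.Stm

/-- The absolute Galois group of `K`. -/
abbrev GK (K : Type) [Field K] : Type := Gal(SeparableClosure K/K)

/-- Matrices over `ℚ_ℓ-bar`. -/
abbrev Mat (ℓ : ℕ) [Fact ℓ.Prime] (m n : ℕ) : Type := Matrix (Fin m) (Fin n) (PadicAlgCl ℓ)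

/-- Vectors over `ℚ_ℓ-bar`. -/
abbrev Vec (ℓ : ℕ) [Fact ℓ.Prime] (n : ℕ) : Type := Fin n → PadicAlgCl ℓ

/-- Subspaces of the space of vectors. -/
abbrev Sp (ℓ : ℕ) [Fact ℓ.Prime] (n : ℕ) : Type := Submodule (PadicAlgCl ℓ) (Vec ℓ n)

/-- `n`-dimensional representations of `G_K` over `ℚ_ℓ-bar`. -/
abbrev Rep (K : Type) [Field K] (ℓ : ℕ) [Fact ℓ.Prime] (n : ℕ) : Type :=
  GK K →* GL (Fin n) (PadicAlgCl ℓ)

variable {K : Type} [Field K] {ℓ : ℕ} [Fact ℓ.Prime] {n m k : ℕ}

/-- The matrix of `g` under `ρ`. -/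
noncomputable def mat (ρ : Rep K ℓ n) (g : GK K) : Mat ℓ n n :=
  (ρ g : GL (Fin n) (PadicAlgCl ℓ))

/-- The action of `g` on vectors under `ρ`. -/
noncomputable def vec (ρ : Rep K ℓ n) (g : GK K) (u : Vec ℓ n) : Vec ℓ n := (mat ρ g).mulVec u

/-- The subspace `S` is stable under `H`. -/
def Stable (H : Subgroup (GK K)) (ρ : Rep K ℓ n) (S : Sp ℓ n) : Prop :=
  ∀ g ∈ H, ∀ u ∈ S, vec ρ g u ∈ S

/-- The restriction of `ρ` to the subgroup `H` is irreducible. -/
def IrreducibleOn (H : Subgroup (GK K)) (ρ : Rep K ℓ n) : Prop :=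
  0 < n ∧ ∀ S : Sp ℓ n, Stable H ρ S → S = ⊥ ∨ S = ⊤

/-- `θ` is semisimple: every stable subspace has a stable complement. -/
def Semisimple (θ : Rep K ℓ m) : Prop :=
  ∀ S : Sp ℓ m, Stable ⊤ θ S →
    ∃ C : Sp ℓ m, Stable ⊤ θ C ∧ IsCompl S C

/-- The matrix `X` defines an injective map. -/
def Inj (X : Mat ℓ m n) : Prop := ∀ y, X.mulVec y = 0 → y = 0

/-- The matrix `X` defines a surjective map. -/
def Surj (X : Mat ℓ m n) : Prop := ∀ z, ∃ y, X.mulVec y = z

/-- `M X = X N`. -/
def Intertwines (X : Mat ℓ m n) (M : Mat ℓ m m) (N : Mat ℓ n n) : Prop := M * X = X * N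

/-- The restriction of `ρ` to the subgroup `H` is a subquotient of the restriction of `θ` to `H`:
there are an injective matrix `A`, whose image is a subspace stable under `H`, with `H` acting by
matrices `C` in the coordinates given by `A`, and a surjective matrix `B`, which maps this subspace
to the space of `ρ` and is compatible with the action of `H`. -/
def Subquotient (H : Subgroup (GK K)) (ρ : Rep K ℓ n) (θ : Rep K ℓ m) : Prop :=
  ∃ (d : ℕ) (A : Mat ℓ m d) (B : Mat ℓ n d), Inj A ∧ Surj B ∧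
    ∀ g ∈ H, ∃ C : Mat ℓ d d, Intertwines A (mat θ g) C ∧ Intertwines B (mat ρ g) C

/-- The functions on `G_K` with values in the space of `θ`. -/
abbrev Fun (K : Type) [Field K] (ℓ : ℕ) [Fact ℓ.Prime] (m : ℕ) : Type := GK K → Vec ℓ m

/-- The action of `G_K` on the functions: `(x φ)(g) = φ(g x)`. -/
noncomputable def shift (x : GK K) (φ : Fun K ℓ m) : Fun K ℓ m := fun g => φ (g * x)

/-- The function `φ` belongs to the representation of `G_K` induced from `θ|H`:
`φ(u g) = θ(u) φ(g)` for `u` in `H`. -/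
def InInduced (H : Subgroup (GK K)) (θ : Rep K ℓ m) (φ : Fun K ℓ m) : Prop :=
  ∀ u ∈ H, ∀ g, φ (u * g) = vec θ u (φ g)

/-- The set `T` of functions is a linear subspace. -/
def IsSpace (T : Set (Fun K ℓ m)) : Prop :=
  0 ∈ T ∧ ∀ (c : PadicAlgCl ℓ) (φ ψ : Fun K ℓ m), φ ∈ T → ψ ∈ T → c • φ + ψ ∈ T

/-- The map `π` is linear. -/
def IsLin (π : Fun K ℓ m → Vec ℓ n) : Prop :=
  ∀ (c : PadicAlgCl ℓ) (φ ψ : Fun K ℓ m), π (c • φ + ψ) = c • π φ + π ψ

/-- The set `T` of functions is stable under `G_K`, and `π` maps it onto the space of `ρ` and is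
compatible there with the action of `G_K`. -/
def MapsOnto (ρ : Rep K ℓ n) (T : Set (Fun K ℓ m)) (π : Fun K ℓ m → Vec ℓ n) : Prop :=
  (∀ φ ∈ T, ∀ x, shift x φ ∈ T ∧ π (shift x φ) = vec ρ x (π φ)) ∧ ∀ y, ∃ φ ∈ T, π φ = y

/-- `ρ` is a subquotient of the representation of `G_K` induced from the restriction of `θ` to
`H`. -/
def SubquotientOfInduced (H : Subgroup (GK K)) (ρ : Rep K ℓ n) (θ : Rep K ℓ m) : Prop :=
  ∃ (T : Set (Fun K ℓ m)) (π : Fun K ℓ m → Vec ℓ n),
    IsSpace T ∧ IsLin π ∧ (∀ φ ∈ T, InInduced H θ φ) ∧ MapsOnto ρ T π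

/-- The subgroup `G_L` of `G_K`. -/
noncomputable def Grp (L : IntermediateField K (SeparableClosure K)) : Subgroup (GK K) :=
  L.fixingSubgroup

/-- `M` is a finite subextension of `L/K`. -/
def FiniteSub (M L : IntermediateField K (SeparableClosure K)) : Prop :=
  M ≤ L ∧ FiniteDimensional K M

/-- The `ℓ`-part of the degree of `L/K` is finite: for some `C` no finite subextension `M` has a
degree `[M : K]` divisible by `ℓ ^ (C + 1)`. -/
def FiniteEllPart (ℓ : ℕ) (L : IntermediateField K (SeparableClosure K)) : Prop :=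
  ∃ C : ℕ, ∀ M : IntermediateField K (SeparableClosure K), FiniteSub M L →
    ¬ ℓ ^ (C + 1) ∣ Module.finrank K M

/-- `L/K` is Galois and every element of `Gal(L/K)` has finite order. -/
def TorsionGalois (L : IntermediateField K (SeparableClosure K)) : Prop :=
  IsGalois K L ∧ ∀ g : GK K, ∃ e : ℕ, 0 < e ∧ g ^ e ∈ Grp L

/-- `L/K` is Galois with an abelian group. -/
def AbelianExt (L : IntermediateField K (SeparableClosure K)) : Prop :=
  ∀ g h : GK K, g * h * g⁻¹ * h⁻¹ ∈ Grp L

/-- `L/K` is Galois and `Gal(L/K)` is a solvable group: for some `d` the `d`-th derived group of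
`G_K` is contained in `G_L`. -/
def SolvableGalois (L : IntermediateField K (SeparableClosure K)) : Prop :=
  IsGalois K L ∧ ∃ d : ℕ, derivedSeries (GK K) d ≤ Grp L

/-- For some finite subextension `M` of `L` the representation `ρ|G_M` is a subquotient of `θ|G_M`
and `ρ` is a subquotient of the representation of `G_K` induced from `θ|G_M`. -/
def Descends (L : IntermediateField K (SeparableClosure K)) (ρ : Rep K ℓ n) (θ : Rep K ℓ m) :
    Prop :=
  ∃ M : IntermediateField K (SeparableClosure K), FiniteSub M L ∧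
    Subquotient (Grp M) ρ θ ∧ SubquotientOfInduced (Grp M) ρ θ

/-- There is a nonzero homomorphism from `ρ|G_L` to `θ|G_L`. -/
def Hom (L : IntermediateField K (SeparableClosure K)) (ρ : Rep K ℓ n) (θ : Rep K ℓ m) : Prop :=
  ∃ X : Mat ℓ m n, X ≠ 0 ∧ ∀ g ∈ Grp L, Intertwines X (mat θ g) (mat ρ g)

/-- The tensor product of two matrices. -/
noncomputable def kron (A : Mat ℓ m m) (B : Mat ℓ k k) :
    Matrix (Fin m × Fin k) (Fin m × Fin k) (PadicAlgCl ℓ) :=
  Matrix.kroneckerMap (fun x y => x * y) A B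

/-- `ρ` is a subrepresentation of `θ ⊗ τ`: there is an injective matrix `J` with
`(θ(g) ⊗ τ(g)) J = J ρ(g)` for all `g` in `G_K`. -/
def SubTensor (ρ : Rep K ℓ n) (θ : Rep K ℓ m) (τ : Rep K ℓ k) : Prop :=
  ∃ J : Matrix (Fin m × Fin k) (Fin n) (PadicAlgCl ℓ), (∀ z, J.mulVec z = 0 → z = 0) ∧
    ∀ g, kron (mat θ g) (mat τ g) * J = J * mat ρ g

/-- `ρ` is a subrepresentation of `θ ⊗ τ` for some continuous representation `τ` of `Gal(L/K)`,
that is, of `G_K` and trivial on `G_L`. -/
def SubTensorOver (L : IntermediateField K (SeparableClosure K)) (ρ : Rep K ℓ n) (θ : Rep K ℓ m) :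
    Prop :=
  ∃ (k : ℕ) (τ : Rep K ℓ k), Continuous τ ∧ (∀ g ∈ Grp L, τ g = 1) ∧ SubTensor ρ θ τ

/-- `ρ ⊗ τ` is a subrepresentation of `θ`: there is an injective matrix `J` with
`θ(g) J = J (ρ(g) ⊗ τ(g))` for all `g` in `G_K`. -/
def TensorSub (ρ : Rep K ℓ n) (τ : Rep K ℓ k) (θ : Rep K ℓ m) : Prop :=
  ∃ J : Matrix (Fin m) (Fin n × Fin k) (PadicAlgCl ℓ), (∀ z, J.mulVec z = 0 → z = 0) ∧
    ∀ g, mat θ g * J = J * kron (mat ρ g) (mat τ g)

/-- `ρ ⊗ τ` is a subrepresentation of `θ` for some continuous representation `τ ≠ 0` of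
`Gal(L/K)`, that is, of `G_K` and trivial on `G_L`. -/
def TensorOver (L : IntermediateField K (SeparableClosure K)) (ρ : Rep K ℓ n) (θ : Rep K ℓ m) :
    Prop :=
  ∃ (k : ℕ) (τ : Rep K ℓ k), 0 < k ∧ Continuous τ ∧ (∀ g ∈ Grp L, τ g = 1) ∧ TensorSub ρ τ θ

/-- The matrix of `g` under `ρ ⊗ χ`. -/
noncomputable def twist (ρ : Rep K ℓ n) (χ : GK K →* (PadicAlgCl ℓ)ˣ) (g : GK K) : Mat ℓ n n :=
  (χ g : PadicAlgCl ℓ) • mat ρ g

/-- `ρ ⊗ χ` is a subrepresentation of `θ` for some continuous character `χ` of `Gal(L/K)`, that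
is, of `G_K` and trivial on `G_L`. -/
def TwistOver (L : IntermediateField K (SeparableClosure K)) (ρ : Rep K ℓ n) (θ : Rep K ℓ m) :
    Prop :=
  ∃ χ : GK K →* (PadicAlgCl ℓ)ˣ, Continuous (fun g => (χ g : PadicAlgCl ℓ)) ∧
    (∀ g ∈ Grp L, χ g = 1) ∧ ∃ X : Mat ℓ m n, Inj X ∧ ∀ g, Intertwines X (mat θ g) (twist ρ χ g)

/-- Characters of `G_M`. -/
abbrev Char (ℓ : ℕ) [Fact ℓ.Prime] (M : IntermediateField K (SeparableClosure K)) : Type :=
  Grp M →* (PadicAlgCl ℓ)ˣ

/-- The value of the character `χ` of `G_M` as a number. -/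
noncomputable def val {M : IntermediateField K (SeparableClosure K)} (χ : Char ℓ M) (u : Grp M) :
    PadicAlgCl ℓ := (χ u : PadicAlgCl ℓ)

/-- `χ` is a continuous character of `Gal(L/M)`, that is, of `G_M` and trivial on `G_L`. -/
def CharOver (L M : IntermediateField K (SeparableClosure K)) (χ : Char ℓ M) : Prop :=
  Continuous (fun u => val χ u) ∧ ∀ u : Grp M, u.1 ∈ Grp L → χ u = 1

/-- The function `φ` belongs to the representation of `G_K` induced from the representation
`θ|G_M ⊗ χ` of `G_M`: `φ(u g) = χ(u) θ(u) φ(g)` for `u` in `G_M`. -/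
def InTwistInduced {M : IntermediateField K (SeparableClosure K)} (χ : Char ℓ M) (θ : Rep K ℓ m)
    (φ : Fun K ℓ m) : Prop :=
  ∀ (u : Grp M) (g : GK K), φ (u.1 * g) = val χ u • vec θ u.1 (φ g)

/-- `ρ` is a subrepresentation of the representation of `G_K` induced from the representation
`θ|G_M ⊗ χ` of `G_M`. -/
def SubInduced {M : IntermediateField K (SeparableClosure K)} (χ : Char ℓ M) (ρ : Rep K ℓ n)
    (θ : Rep K ℓ m) : Prop :=
  ∃ Φ : Vec ℓ n →ₗ[PadicAlgCl ℓ] Fun K ℓ m, Function.Injective Φ ∧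
    ∀ v, InTwistInduced χ θ (Φ v) ∧ ∀ x, Φ (vec ρ x v) = shift x (Φ v)

/-- For some finite subextension `M` of `L` and some continuous character `χ` of `Gal(L/M)` the
representation `ρ` is a subrepresentation of the representation of `G_K` induced from the
representation `θ|G_M ⊗ χ` of `G_M`. -/
def SubInducedOver (L : IntermediateField K (SeparableClosure K)) (ρ : Rep K ℓ n)
    (θ : Rep K ℓ m) : Prop :=
  ∃ M : IntermediateField K (SeparableClosure K), FiniteSub M L ∧
    ∃ χ : Char ℓ M, CharOver L M χ ∧ SubInduced χ ρ θ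

/-- The restriction of `ρ` to `G_M` is irreducible for all finite subextensions `M` of `L`. -/
def IrreducibleBelow (L : IntermediateField K (SeparableClosure K)) (ρ : Rep K ℓ n) : Prop :=
  ∀ M : IntermediateField K (SeparableClosure K), FiniteSub M L → IrreducibleOn (Grp M) ρ

/-- The determinants of the matrices `D g`, `g` in `H`, have finite order: for some `N > 0` all of
them have `N`-th power `1`. -/
def FiniteDet (H : Subgroup (GK K)) (D : GK K → Mat ℓ n n) : Prop :=
  ∃ N : ℕ, 0 < N ∧ ∀ g ∈ H, (D g).det ^ N = 1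

/-- The subspace of the space of `θ` that is the image of the injective matrix `X` is stable under
`H`, and `D g` is the matrix of `g` in `H` on it in the coordinates given by `X`. -/
def SubWith (H : Subgroup (GK K)) (θ : Rep K ℓ m) (X : Mat ℓ m n) (D : GK K → Mat ℓ n n) :
    Prop :=
  Inj X ∧ ∀ g ∈ H, Intertwines X (mat θ g) (D g)

/-- For every finite subextension `M` of `L` and every `n`-dimensional subrepresentation of
`θ|G_M`: if its determinant has finite order on `G_L`, it has finite order. -/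
def DetRigid (L : IntermediateField K (SeparableClosure K)) (n : ℕ) (θ : Rep K ℓ m) : Prop :=
  ∀ M : IntermediateField K (SeparableClosure K), FiniteSub M L →
    ∀ (X : Mat ℓ m n) (D : GK K → Mat ℓ n n), SubWith (Grp M) θ X D →
      FiniteDet (Grp L) D → FiniteDet (Grp M) D

end Pool.Agent.H73.FF.Stm
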