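import Pool.Agent.H73.FF.Tens

/-!
# All Galois extensions: `ρ` inside `θ ⊗ τ`
-/

set_option autoImplicit false

namespace Pool.Agent.H73.FF

variable {K : Type} [Field K] {p : ℕ} [Fact p.Prime] {n m : ℕ}

theorem tensor_sup (ρ : Rep K p n) (θ : Rep K p m) (hρ : Continuous ρ) (hθ : Continuous θ)
    (L : IntermediateField K (SeparableClosure K)) (hnorm : (L.fixingSubgroup).Normal)
    (hirr : Irreducible ρ)
    (h : ∃ X : Matrix (Fin m) (Fin n) (PadicAlgCl p), X ≠ 0 ∧
      ∀ g ∈ L.fixingSubgroup, mat θ g * X = X * mat ρ g) :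
    ∃ (k : ℕ) (τ : Rep K p k), Continuous τ ∧ (∀ g ∈ L.fixingSubgroup, τ g = 1) ∧
      ∃ J : Matrix (Fin m × Fin k) (Fin n) (PadicAlgCl p), (∀ z, J.mulVec z = 0 → z = 0) ∧
        ∀ g, Matrix.kroneckerMap (fun x y => x * y) (mat θ g) (mat τ g) * J = J * mat ρ g := by
  classical
  obtain ⟨X0, hne, hL⟩ := h
  have hfix : ∀ (X : Matrix (Fin m) (Fin n) (PadicAlgCl p)) (g : GK K),
      act ρ θ g X = X ↔ mat θ g * X = X * mat ρ g := by
    intro X g
    have := act_fix_iff ρ θ g X 1
    rwa [one_smul, one_smul] at this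
  let T : Submodule (PadicAlgCl p) (Matrix (Fin m) (Fin n) (PadicAlgCl p)) :=
    { carrier := {X | ∀ h ∈ L.fixingSubgroup, act ρ θ h X = X}
      zero_mem' := fun h _ => map_zero _
      add_mem' := fun {X Y} hX hY h hh => by rw [map_add, hX h hh, hY h hh]
      smul_mem' := fun c X hX h hh => by rw [map_smul, hX h hh] }
  have hTact : ∀ g, ∀ X ∈ T, act ρ θ g X ∈ T := by
    intro g X hX h hh
    have e : h * g = g * (g⁻¹ * h * g) := by group
    rw [← act_mul, e, act_mul]
    have h1 := hnorm.conj_mem h hh g⁻¹
    rw [inv_inv] at h1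
    rw [hX _ h1]
  have hX0T : X0 ∈ T := fun h hh => (hfix X0 h).mpr (hL h hh)
  let b := Module.finBasis (PadicAlgCl p) T
  have hkpos : 0 < Module.finrank (PadicAlgCl p) T := by
    haveI : Nontrivial T := ⟨⟨⟨X0, hX0T⟩, 0, fun e => hne (congrArg Subtype.val e)⟩⟩
    exact Module.finrank_pos
  let A : GK K → (T →ₗ[PadicAlgCl p] T) := fun g => (act ρ θ g).restrict (hTact g)
  have hA1 : A 1 = LinearMap.id := by
    apply LinearMap.ext
    intro X
    exact Subtype.ext (act_one ρ θ X.1)
  have hAm : ∀ g h, A (g * h) = (A g).comp (A h) := by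
    intro g h
    apply LinearMap.ext
    intro X
    exact Subtype.ext (act_mul ρ θ g h X.1)
  let B : GK K → Matrix (Fin (Module.finrank (PadicAlgCl p) T))
      (Fin (Module.finrank (PadicAlgCl p) T)) (PadicAlgCl p) := fun g => LinearMap.toMatrix b b (A g)
  have hB1 : B 1 = 1 := by
    show LinearMap.toMatrix b b (A 1) = 1
    rw [hA1, LinearMap.toMatrix_id]
  have hBm : ∀ g h, B (g * h) = B g * B h := by
    intro g h
    show LinearMap.toMatrix b b (A (g * h)) = _
    rw [hAm, LinearMap.toMatrix_comp b b b]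
  let τ : Rep K p (Module.finrank (PadicAlgCl p) T) :=
    { toFun := fun g =>
        { val := (B g⁻¹).transpose
          inv := (B g).transpose
          val_inv := by
            rw [← Matrix.transpose_mul, ← hBm, mul_inv_cancel, hB1, Matrix.transpose_one]
          inv_val := by
            rw [← Matrix.transpose_mul, ← hBm, inv_mul_cancel, hB1, Matrix.transpose_one] }
      map_one' := by
        ext1
        show (B 1⁻¹).transpose = 1
        rw [inv_one, hB1, Matrix.transpose_one]
      map_mul' := fun g h => by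
        ext1
        show (B (g * h)⁻¹).transpose = (B g⁻¹).transpose * (B h⁻¹).transpose
        rw [← Matrix.transpose_mul, ← hBm, mul_inv_rev] }
  have hBcont : Continuous B := by
    apply continuous_matrix
    intro i j
    obtain ⟨ℓ, hℓ⟩ := LinearMap.exists_extend (b.coord i)
    have e : (fun g => B g i j) = fun g => ℓ (mat θ g * (b j).1 * mat ρ g⁻¹) := by
      funext g
      show LinearMap.toMatrix b b (A g) i j = _
      rw [LinearMap.toMatrix_apply]
      have h1 : ℓ ((A g (b j)).1) = b.coord i (A g (b j)) := by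
        rw [← hℓ]; rfl
      rw [← b.coord_apply, ← h1]
      rfl
    rw [e]
    have hcont : Continuous fun g => mat θ g * (b j).1 * mat ρ g⁻¹ :=
      ((continuous_mat hθ).matrix_mul continuous_const).matrix_mul
        ((continuous_mat hρ).comp continuous_inv)
    have hl : ∀ Y : Matrix (Fin m) (Fin n) (PadicAlgCl p),
        ℓ Y = ∑ x, ∑ y, Y x y * ℓ (Matrix.single x y 1) := by
      intro Y
      conv_lhs => rw [Matrix.matrix_eq_sum_single Y]
      rw [map_sum]
      apply Finset.sum_congr rfl
      intro x _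
      rw [map_sum]
      apply Finset.sum_congr rfl
      intro y _
      have : Matrix.single x y (Y x y) = Y x y • Matrix.single x y (1 : PadicAlgCl p) := by
        rw [Matrix.smul_single, smul_eq_mul, mul_one]
      rw [this, map_smul, smul_eq_mul]
    have e2 : (fun g => ℓ (mat θ g * (b j).1 * mat ρ g⁻¹)) = fun g =>
        ∑ x, ∑ y, (mat θ g * (b j).1 * mat ρ g⁻¹) x y * ℓ (Matrix.single x y 1) := by
      funext g; exact hl _
    rw [e2]
    exact continuous_finsetSum _ (fun x _ => continuous_finsetSum _ (fun y _ =>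
      (hcont.matrix_elem x y).mul continuous_const))
  have hBtc : Continuous fun g => (B g).transpose := hBcont.matrix_transpose
  refine ⟨_, τ, ?_, ?_, ?_⟩
  · rw [Units.continuous_iff]
    exact ⟨hBtc.comp continuous_inv, hBtc⟩
  · intro g hg
    ext1
    show (B g⁻¹).transpose = 1
    have h1 : B g⁻¹ = 1 := by
      show LinearMap.toMatrix b b (A g⁻¹) = 1
      have : A g⁻¹ = LinearMap.id := by
        apply LinearMap.ext
        intro X
        exact Subtype.ext (X.2 g⁻¹ (inv_mem hg))
      rw [this, LinearMap.toMatrix_id]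
    rw [h1, Matrix.transpose_one]
  · have hact : ∀ g j, act ρ θ g (b j).1 = ∑ i, B g i j • (b i).1 := by
      intro g j
      have h1 : A g (b j) = ∑ i, B g i j • b i := by
        rw [← b.sum_repr (A g (b j))]
        apply Finset.sum_congr rfl
        intro i _
        show _ = LinearMap.toMatrix b b (A g) i j • b i
        rw [LinearMap.toMatrix_apply]
      have h2 := congrArg Subtype.val h1
      rw [Submodule.coe_sum] at h2
      exact h2
    -- `b_j ρ(g) = ∑ i, B(g⁻¹) i j • θ(g) b_i`
    have hact2 : ∀ g j, (b j).1 * mat ρ g = ∑ i, B g⁻¹ i j • (mat θ g * (b i).1) := by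
      intro g j
      have h1 := congrArg (fun Y => mat θ g * Y) (hact g⁻¹ j)
      have h2 : mat θ g * act ρ θ g⁻¹ (b j).1 = (b j).1 * mat ρ g := by
        rw [act_apply, inv_inv, ← Matrix.mul_assoc, ← Matrix.mul_assoc, mat_mul_inv,
          Matrix.one_mul]
      rw [← h2]
      refine h1.trans ?_
      rw [Matrix.mul_sum]
      apply Finset.sum_congr rfl
      intro i _
      rw [Matrix.mul_smul]
    refine ⟨Matrix.of fun x a => (b x.2).1 x.1 a, ?_, ?_⟩
    · -- injectivity
      intro z hz
      have hz' : ∀ j, (b j).1.mulVec z = 0 := by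
        intro j
        funext c
        exact congrFun hz (c, j)
      rcases hirr.2
        { carrier := {u | ∀ X ∈ T, X.mulVec u = 0}
          zero_mem' := fun X _ => Matrix.mulVec_zero X
          add_mem' := fun {u w} hu hw X hX => by
            rw [Matrix.mulVec_add, hu X hX, hw X hX, add_zero]
          smul_mem' := fun c u hu X hX => by
            rw [Matrix.mulVec_smul, hu X hX, smul_zero] }
        (by
          intro g u hu X hX
          have h1 := hu _ (hTact g⁻¹ X hX)
          rw [act_apply, inv_inv, ← Matrix.mulVec_mulVec, ← Matrix.mulVec_mulVec] at h1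
          have h2 := congrArg (fun y => (mat θ g).mulVec y) h1
          simp only [Matrix.mulVec_mulVec, Matrix.mulVec_zero] at h2
          rw [← Matrix.mul_assoc, ← Matrix.mul_assoc, mat_mul_inv, Matrix.one_mul] at h2
          rw [Matrix.mulVec_mulVec]
          exact h2) with h0 | h0
      · have h1 : z ∈ (⊥ : Submodule (PadicAlgCl p) (Fin n → PadicAlgCl p)) := by
          rw [← h0]
          intro X hX
          have h2 := b.sum_repr ⟨X, hX⟩
          have h3 := congrArg Subtype.val h2
          rw [Submodule.coe_sum] at h3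
          rw [← show _ = X from h3, Matrix.sum_mulVec]
          apply Finset.sum_eq_zero
          intro i _
          rw [Submodule.coe_smul, Matrix.smul_mulVec, hz', smul_zero]
        exact (Submodule.mem_bot _).mp h1
      · exfalso
        apply hne
        ext i j
        have h1 : (Pi.single j 1 : Fin n → PadicAlgCl p) ∈
            (⊤ : Submodule (PadicAlgCl p) (Fin n → PadicAlgCl p)) := Submodule.mem_top
        rw [← h0] at h1
        have h2 := h1 X0 hX0T
        rw [Matrix.mulVec_single_one] at h2
        exact congrFun h2 i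
    · intro g
      ext x a
      have h1 := congrFun (congrFun (hact2 g x.2) x.1) a
      rw [Matrix.mul_apply, Matrix.sum_apply] at h1
      rw [Matrix.mul_apply, Matrix.mul_apply]
      refine Eq.trans ?_ h1.symm
      rw [Fintype.sum_prod_type, Finset.sum_comm]
      apply Finset.sum_congr rfl
      intro i _
      rw [Matrix.smul_apply, smul_eq_mul, Matrix.mul_apply, Finset.mul_sum]
      apply Finset.sum_congr rfl
      intro c _
      show (mat θ g x.1 c * mat τ g x.2 i) * (b i).1 c a =
        B g⁻¹ i x.2 * (mat θ g x.1 c * (b i).1 c a)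
      have : mat τ g x.2 i = B g⁻¹ i x.2 := rfl
      rw [this]
      ring

/-- the converse -/
theorem meet_of_sup (ρ : Rep K p n) (θ : Rep K p m) (hn : 0 < n)
    (L : IntermediateField K (SeparableClosure K)) {k : ℕ} (τ : Rep K p k)
    (hτ : ∀ g ∈ L.fixingSubgroup, τ g = 1)
    (J : Matrix (Fin m × Fin k) (Fin n) (PadicAlgCl p)) (hJ : ∀ z, J.mulVec z = 0 → z = 0)
    (h : ∀ g, Matrix.kroneckerMap (fun x y => x * y) (mat θ g) (mat τ g) * J = J * mat ρ g) :
    ∃ X : Matrix (Fin m) (Fin n) (PadicAlgCl p), X ≠ 0 ∧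
      ∀ g ∈ L.fixingSubgroup, mat θ g * X = X * mat ρ g := by
  classical
  obtain ⟨i, hi⟩ : ∃ i : Fin k, (Matrix.of fun c a => J (c, i) a :
      Matrix (Fin m) (Fin n) (PadicAlgCl p)) ≠ 0 := by
    by_contra hcon
    push Not at hcon
    have h1 := hJ (Pi.single ⟨0, hn⟩ 1) (by
      rw [Matrix.mulVec_single_one]
      funext x
      exact congrFun (congrFun (hcon x.2) x.1) ⟨0, hn⟩)
    have h2 := congrFun h1 ⟨0, hn⟩
    rw [Pi.single_eq_same] at h2
    exact one_ne_zero h2
  refine ⟨_, hi, fun g hg => ?_⟩
  have h2 : mat τ g = 1 := by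
    unfold mat
    rw [hτ g hg, Units.val_one]
  ext c a
  have h3 := congrFun (congrFun (h g) (c, i)) a
  rw [Matrix.mul_apply, Matrix.mul_apply, Fintype.sum_prod_type] at h3
  rw [Matrix.mul_apply, Matrix.mul_apply]
  refine Eq.trans ?_ h3
  apply Finset.sum_congr rfl
  intro c' _
  rw [h2]
  simp only [Matrix.kroneckerMap_apply, Matrix.of_apply, Matrix.one_apply]
  simp

end Pool.Agent.H73.FF
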