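import Pool.Agent.H73.FF.Main
import Pool.Agent.H73.FF.Solv
import Pool.Agent.H73.FF.Sup
import Pool.Agent.H73.FF.Stm

/-!
# Comparison of the definitions
-/

set_option autoImplicit false

namespace Pool.Agent.H73.FF

variable {K : Type} [Field K] {p : ℕ} [Fact p.Prime] {n m : ℕ}

theorem over_of_stm (L : IntermediateField K (SeparableClosure K)) (ρ : Rep K p n)
    (θ : Rep K p m) (h : Stm.Subquotient (Stm.Grp L) ρ θ) : SubquotientOver L ρ θ := by
  obtain ⟨d, A, B, hA, hB, h⟩ := h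
  have hinj : Function.Injective (Matrix.mulVecLin A) := by
    rw [← LinearMap.ker_eq_bot, LinearMap.ker_eq_bot']
    intro y hy
    exact hA y hy
  let e := LinearEquiv.ofInjective (Matrix.mulVecLin A) hinj
  refine ⟨LinearMap.range (Matrix.mulVecLin A), Matrix.mulVecLin B ∘ₗ e.symm.toLinearMap, ?_, ?_⟩
  · intro z
    obtain ⟨y, hy⟩ := hB z
    refine ⟨e y, ?_⟩
    show B.mulVec (e.symm (e y)) = z
    rw [e.symm_apply_apply, hy]
  · intro g hg u
    obtain ⟨C, hC1, hC2⟩ := h g hg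
    have hC1' : mat θ g * A = A * C := hC1
    have hC2' : mat ρ g * B = B * C := hC2
    have hu : u = e (e.symm u) := (e.apply_symm_apply u).symm
    have hu' : (u : Fin m → PadicAlgCl p) = A.mulVec (e.symm u) := by
      conv_lhs => rw [hu]
      rfl
    have key : (mat θ g).mulVec u.1 = A.mulVec (C.mulVec (e.symm u)) := by
      rw [hu', Matrix.mulVec_mulVec, hC1', Matrix.mulVec_mulVec]
    have hmem : (mat θ g).mulVec u.1 ∈ LinearMap.range (Matrix.mulVecLin A) := by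
      rw [key]; exact ⟨_, rfl⟩
    refine ⟨hmem, ?_⟩
    have h1 : e.symm ⟨(mat θ g).mulVec u.1, hmem⟩ = C.mulVec (e.symm u) := by
      rw [LinearEquiv.symm_apply_eq]
      apply Subtype.ext
      exact key
    show B.mulVec (e.symm ⟨(mat θ g).mulVec u.1, hmem⟩) = (mat ρ g).mulVec (B.mulVec (e.symm u))
    rw [h1, Matrix.mulVec_mulVec, Matrix.mulVec_mulVec, hC2']

theorem stm_of_over (L : IntermediateField K (SeparableClosure K)) (ρ : Rep K p n)
    (θ : Rep K p m) (h : SubquotientOver L ρ θ) : Stm.Subquotient (Stm.Grp L) ρ θ := by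
  obtain ⟨S, π, hπ, hS⟩ := h
  let b := Module.finBasis (PadicAlgCl p) S
  let e : S ≃ₗ[PadicAlgCl p] (Fin (Module.finrank (PadicAlgCl p) S) → PadicAlgCl p) := b.equivFun
  refine ⟨_, LinearMap.toMatrix' (S.subtype ∘ₗ e.symm.toLinearMap),
    LinearMap.toMatrix' (π ∘ₗ e.symm.toLinearMap), ?_, ?_, ?_⟩
  · intro y hy
    rw [LinearMap.toMatrix'_mulVec] at hy
    have h1 : e.symm y = 0 := Subtype.ext hy
    exact (LinearEquiv.map_eq_zero_iff e.symm).mp h1
  · intro z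
    obtain ⟨s, hs⟩ := hπ z
    refine ⟨e s, ?_⟩
    rw [LinearMap.toMatrix'_mulVec]
    show π (e.symm (e s)) = z
    rw [e.symm_apply_apply, hs]
  · intro g hg
    let c : S →ₗ[PadicAlgCl p] S := (Matrix.mulVecLin (mat θ g)).restrict
      (fun u hu => (hS g hg ⟨u, hu⟩).choose)
    refine ⟨LinearMap.toMatrix' (e.toLinearMap ∘ₗ c ∘ₗ e.symm.toLinearMap), ?_, ?_⟩
    · show mat θ g * _ = _ * _
      apply Matrix.toLin'.injective
      apply LinearMap.ext
      intro y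
      rw [Matrix.toLin'_apply, Matrix.toLin'_apply, ← Matrix.mulVec_mulVec,
        ← Matrix.mulVec_mulVec, LinearMap.toMatrix'_mulVec, LinearMap.toMatrix'_mulVec,
        LinearMap.toMatrix'_mulVec]
      show (mat θ g).mulVec (e.symm y).1 = (e.symm (e (c (e.symm y)))).1
      rw [e.symm_apply_apply]
      rfl
    · show mat ρ g * _ = _ * _
      apply Matrix.toLin'.injective
      apply LinearMap.ext
      intro y
      rw [Matrix.toLin'_apply, Matrix.toLin'_apply, ← Matrix.mulVec_mulVec,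
        ← Matrix.mulVec_mulVec, LinearMap.toMatrix'_mulVec, LinearMap.toMatrix'_mulVec,
        LinearMap.toMatrix'_mulVec]
      show (mat ρ g).mulVec (π (e.symm y)) = π (e.symm (e (c (e.symm y))))
      rw [e.symm_apply_apply]
      exact ((hS g hg (e.symm y)).choose_spec).symm

theorem stm_of_induced (M : IntermediateField K (SeparableClosure K)) (ρ : Rep K p n)
    (θ : Rep K p m) (h : SubquotientOfInduced M ρ θ) :
    Stm.SubquotientOfInduced (Stm.Grp M) ρ θ := by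
  obtain ⟨T, π, hT, hsurj, hact⟩ := h
  obtain ⟨π', hπ'⟩ := LinearMap.exists_extend π
  have hπ : ∀ (φ : GK K → Fin m → PadicAlgCl p) (h : φ ∈ T), π' φ = π ⟨φ, h⟩ := by
    intro φ h
    rw [← hπ']
    rfl
  refine ⟨(T : Set _), fun φ => π' φ, ⟨T.zero_mem, fun c φ ψ hφ hψ =>
    T.add_mem (T.smul_mem c hφ) hψ⟩, ?_, ?_, ?_, ?_⟩
  · intro c φ ψ
    show π' (c • φ + ψ) = c • π' φ + π' ψ
    rw [map_add, map_smul]
  · intro φ hφ u hu g
    exact hT hφ u hu g
  · intro φ hφ x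
    obtain ⟨h1, h2⟩ := hact x ⟨φ, hφ⟩
    refine ⟨h1, ?_⟩
    show π' (fun g => φ (g * x)) = (mat ρ x).mulVec (π' φ)
    rw [hπ _ h1, hπ _ hφ]
    exact h2
  · intro y
    obtain ⟨φ, hφ⟩ := hsurj y
    exact ⟨φ.1, φ.2, (hπ _ φ.2).trans hφ⟩

theorem irr_of_stm (ρ : Rep K p n) (h : Stm.IrreducibleOn ⊤ ρ) : Irreducible ρ :=
  ⟨h.1, fun S hS => h.2 S (fun g _ u hu => hS g u hu)⟩

theorem irrOver_of_stm (L : IntermediateField K (SeparableClosure K)) (ρ : Rep K p n)
    (h : Stm.IrreducibleOn (Stm.Grp L) ρ) : IrreducibleOver L ρ :=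
  ⟨h.1, fun S hS => h.2 S (fun g hg u hu => hS g hg u hu)⟩

theorem ss_of_stm (θ : Rep K p m) (h : Stm.Semisimple θ) : Semisimple θ := by
  intro S hS
  obtain ⟨C, hC1, hC2⟩ := h S (fun g _ u hu => hS g u hu)
  exact ⟨C, fun g u hu => hC1 g (Subgroup.mem_top g) u hu, hC2⟩

theorem det_descend (ρ : Rep K p n) (θ : Rep K p m) (hρ : Continuous ρ) (hθ : Continuous θ)
    (L : IntermediateField K (SeparableClosure K)) (hG : Stm.SolvableGalois L)
    (hirr : Stm.IrreducibleBelow L ρ) (hdet : Stm.FiniteDet ⊤ (mat ρ))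
    (hrig : Stm.DetRigid L n θ) (h : Stm.Hom L ρ θ) : Stm.Descends L ρ θ := by
  classical
  obtain ⟨hGal, d, hd⟩ := hG
  have hn : (L.fixingSubgroup).Normal := (InfiniteGalois.normal_iff_isGalois L).mpr hGal
  obtain ⟨M, hML, hMf, χ, hχc, hχL, X, hX, hXχ⟩ := eigen_solvable ρ θ hρ hθ L hn d hd h
  have hinj := inj_of_irr ρ θ M
    ⟨(hirr M ⟨hML, hMf⟩).1, fun S hS => (hirr M ⟨hML, hMf⟩).2 S (fun g hg u hu => hS g hg u hu)⟩
    χ X hX hXχ
  obtain ⟨N0, hN0, hdet⟩ := hdet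
  let D : GK K → Matrix (Fin n) (Fin n) (PadicAlgCl p) := fun g =>
    if hg : g ∈ M.fixingSubgroup then (χ ⟨g, hg⟩ : PadicAlgCl p) • mat ρ g else 1
  have hDM : ∀ u : M.fixingSubgroup, D u.1 = (χ u : PadicAlgCl p) • mat ρ u.1 := by
    intro u
    show (if hg : u.1 ∈ M.fixingSubgroup then (χ ⟨u.1, hg⟩ : PadicAlgCl p) • mat ρ u.1 else 1) = _
    rw [dif_pos u.2]
  obtain ⟨N, hN, hNd⟩ := hrig M ⟨hML, hMf⟩ X D
    ⟨hinj, fun g hg => by
      show mat θ g * X = X * D g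
      have h1 := hDM ⟨g, hg⟩
      rw [h1, Matrix.mul_smul]
      exact hXχ ⟨g, hg⟩⟩
    ⟨N0, hN0, fun g hg => by
      have hgM : g ∈ M.fixingSubgroup := IntermediateField.fixingSubgroup_antitone hML hg
      have h1 := hDM ⟨g, hgM⟩
      rw [h1, hχL ⟨g, hgM⟩ hg, Units.val_one, one_smul]
      exact hdet g (Subgroup.mem_top g)⟩
  have hn0 := (hirr M ⟨hML, hMf⟩).1
  have hfin : ∀ u, (χ u : PadicAlgCl p) ^ (n * N * N0) = 1 := by
    intro u
    have h1 := hNd u.1 u.2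
    rw [hDM u, Matrix.det_smul, Fintype.card_fin, mul_pow] at h1
    have h2 := congrArg (fun x => x ^ N0) h1
    simp only [mul_pow, one_pow] at h2
    have h3 : ((mat ρ u.1).det ^ N) ^ N0 = 1 := by
      rw [← pow_mul, mul_comm, pow_mul]
      have := hdet u.1 (Subgroup.mem_top u.1)
      rw [this, one_pow]
    rw [h3, mul_one] at h2
    rw [pow_mul, pow_mul]
    exact h2
  obtain ⟨M', h1, h2, h3, h4⟩ := open_kernel M L χ hχc hχL hML (n * N * N0)
    (Nat.mul_pos (Nat.mul_pos hn0 hN) hN0) hfin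
  have hsub : SubOver M' ρ θ := ⟨X, hinj, fun g hg => by
    have h5 := hXχ ⟨g, h3 hg⟩
    rw [h4 ⟨g, h3 hg⟩ hg, Units.val_one, one_smul] at h5
    exact h5⟩
  have h5 := subquotient_of_sub M' ρ θ hsub
  exact ⟨M', ⟨h1, h2⟩, stm_of_over M' ρ θ h5, stm_of_induced M' ρ θ (sub_induced M' ρ θ h5)⟩

theorem inv_cont (M : IntermediateField K (SeparableClosure K))
    (χ : M.fixingSubgroup →* (PadicAlgCl p)ˣ)
    (h : Continuous fun g => (χ g : PadicAlgCl p)) :
    Continuous fun g => ((χ⁻¹ g : (PadicAlgCl p)ˣ) : PadicAlgCl p) := by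
  have h1 : (fun g => ((χ⁻¹ g : (PadicAlgCl p)ˣ) : PadicAlgCl p)) =
      fun g => (χ g⁻¹ : PadicAlgCl p) := by
    funext u
    rw [MonoidHom.inv_apply, map_inv]
  rw [h1]
  exact h.comp continuous_inv

theorem inv_one_of (M : IntermediateField K (SeparableClosure K))
    (χ : M.fixingSubgroup →* (PadicAlgCl p)ˣ) (g : M.fixingSubgroup) (h : χ g = 1) :
    χ⁻¹ g = 1 := by
  rw [MonoidHom.inv_apply, h, inv_one]

theorem hom_of_sub (L : IntermediateField K (SeparableClosure K)) (ρ : Rep K p n)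
    (θ : Rep K p m) (hn : (L.fixingSubgroup).Normal) (hn0 : 0 < n) (hss : Stm.Semisimple θ)
    (h : Stm.Subquotient (Stm.Grp L) ρ θ) : Stm.Hom L ρ θ := by
  obtain ⟨X, hX, hXg⟩ := sub_of_subquotient L ρ θ (ss_of_stm θ hss) (over_of_stm L ρ θ h)
  refine ⟨X, ?_, hXg⟩
  intro h0
  have h1 := hX (Pi.single ⟨0, hn0⟩ 1) (by rw [h0, Matrix.zero_mulVec])
  have h2 := congrFun h1 ⟨0, hn0⟩
  rw [Pi.single_eq_same] at h2
  exact one_ne_zero h2

theorem tensor_iff (L : IntermediateField K (SeparableClosure K)) (ρ : Rep K p n)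
    (θ : Rep K p m) (hρ : Continuous ρ) (hθ : Continuous θ) (hn : (L.fixingSubgroup).Normal)
    (hirr : Stm.IrreducibleOn (Stm.Grp L) ρ) : Stm.Hom L ρ θ ↔ Stm.TensorOver L ρ θ := by
  have hirr' := irrOver_of_stm L ρ hirr
  constructor
  · rintro ⟨X, hX, hXg⟩
    have hinj := inj_of_irr ρ θ L hirr' 1 X hX (fun g => by
      rw [MonoidHom.one_apply, Units.val_one, one_smul]
      exact hXg g.1 g.2)
    exact tensor_sub ρ θ hρ hθ L hn hirr' ⟨X, hinj, hXg⟩
  · rintro ⟨k, τ, hk, -, hτ, hT⟩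
    obtain ⟨X, hX, hXg⟩ := sub_of_tensor ρ θ L hk τ hτ hT
    refine ⟨X, ?_, hXg⟩
    intro h0
    have h1 := hX (Pi.single ⟨0, hirr.1⟩ 1) (by rw [h0, Matrix.zero_mulVec])
    have h2 := congrFun h1 ⟨0, hirr.1⟩
    rw [Pi.single_eq_same] at h2
    exact one_ne_zero h2

theorem inv_twist (M : IntermediateField K (SeparableClosure K))
    (χ : M.fixingSubgroup →* (PadicAlgCl p)ˣ) (ρ : Rep K p n) (θ : Rep K p m)
    (X : Matrix (Fin m) (Fin n) (PadicAlgCl p))
    (h : ∀ g : M.fixingSubgroup, mat θ g.1 * X = (χ g : PadicAlgCl p) • (X * mat ρ g.1)) :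
    ∀ g : M.fixingSubgroup,
      (((χ⁻¹ g : (PadicAlgCl p)ˣ) : PadicAlgCl p) • mat θ g.1) * X = X * mat ρ g.1 := by
  intro g
  rw [Matrix.smul_mul, h g, smul_smul, MonoidHom.inv_apply, Units.inv_mul, one_smul]

end Pool.Agent.H73.FF
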