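import Mathlib

/-!
# Definitions: representations of the Galois group over subfields and induced representations
-/

set_option autoImplicit false

namespace Pool.Agent.H73.FF

/-- The absolute Galois group of `K`. -/
abbrev GK (K : Type) [Field K] : Type := Gal(SeparableClosure K/K)

/-- `n`-dimensional representations of `G_K` over `ℚ_p-bar`. -/
abbrev Rep (K : Type) [Field K] (p : ℕ) [Fact p.Prime] (n : ℕ) : Type :=
  GK K →* GL (Fin n) (PadicAlgCl p)

variable {K : Type} [Field K] {p : ℕ} [Fact p.Prime] {n m : ℕ}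

/-- The matrix of `g` under `ρ`. -/
noncomputable def mat (ρ : Rep K p n) (g : GK K) : Matrix (Fin n) (Fin n) (PadicAlgCl p) :=
  (ρ g : GL (Fin n) (PadicAlgCl p))

/-- `ρ` is irreducible. -/
def Irreducible (ρ : Rep K p n) : Prop :=
  0 < n ∧ ∀ S : Submodule (PadicAlgCl p) (Fin n → PadicAlgCl p),
    (∀ g, ∀ u ∈ S, (mat ρ g).mulVec u ∈ S) → S = ⊥ ∨ S = ⊤

/-- The restriction of `ρ` to `G_L` is irreducible. -/
def IrreducibleOver (L : IntermediateField K (SeparableClosure K)) (ρ : Rep K p n) : Prop :=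
  0 < n ∧ ∀ S : Submodule (PadicAlgCl p) (Fin n → PadicAlgCl p),
    (∀ g ∈ L.fixingSubgroup, ∀ u ∈ S, (mat ρ g).mulVec u ∈ S) → S = ⊥ ∨ S = ⊤

/-- `θ` is semisimple: every stable subspace has a stable complement. -/
def Semisimple (θ : Rep K p m) : Prop :=
  ∀ S : Submodule (PadicAlgCl p) (Fin m → PadicAlgCl p),
    (∀ g, ∀ u ∈ S, (mat θ g).mulVec u ∈ S) →
    ∃ C : Submodule (PadicAlgCl p) (Fin m → PadicAlgCl p),
      (∀ g, ∀ u ∈ C, (mat θ g).mulVec u ∈ C) ∧ IsCompl S C

/-- The restriction of `ρ` to `G_L` is a subquotient of the restriction of `θ` to `G_L`: there are a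
subspace `S` of the space of `θ` and a surjection `π` of `S` to the space of `ρ` such that `S` and
`π` are compatible with the action of `G_L`. -/
def SubquotientOver (L : IntermediateField K (SeparableClosure K)) (ρ : Rep K p n)
    (θ : Rep K p m) : Prop :=
  ∃ (S : Submodule (PadicAlgCl p) (Fin m → PadicAlgCl p))
    (π : S →ₗ[PadicAlgCl p] (Fin n → PadicAlgCl p)), Function.Surjective π ∧
    ∀ g ∈ L.fixingSubgroup, ∀ u : S, ∃ h : (mat θ g).mulVec u.1 ∈ S,
      π ⟨(mat θ g).mulVec u.1, h⟩ = (mat ρ g).mulVec (π u)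

/-- The restriction of `ρ` to `G_L` is a subrepresentation of the restriction of `θ` to `G_L`: there
is an injective matrix `X` with `θ(g) X = X ρ(g)` for all `g` in `G_L`. -/
def SubOver (L : IntermediateField K (SeparableClosure K)) (ρ : Rep K p n) (θ : Rep K p m) :
    Prop :=
  ∃ X : Matrix (Fin m) (Fin n) (PadicAlgCl p), (∀ y, X.mulVec y = 0 → y = 0) ∧
    ∀ g ∈ L.fixingSubgroup, mat θ g * X = X * mat ρ g

/-- `ρ ⊗ τ` is a subrepresentation of `θ`: there is an injective matrix `J` with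
`θ(g) J = J (ρ(g) ⊗ τ(g))` for all `g` in `G_K`. -/
def TensorSub {k : ℕ} (ρ : Rep K p n) (τ : Rep K p k) (θ : Rep K p m) : Prop :=
  ∃ J : Matrix (Fin m) (Fin n × Fin k) (PadicAlgCl p), (∀ z, J.mulVec z = 0 → z = 0) ∧
    ∀ g, mat θ g * J = J * Matrix.kroneckerMap (fun x y => x * y) (mat ρ g) (mat τ g)

/-- The space of the representation of `G_K` induced from the restriction of `θ` to `G_M`: the
functions `φ` on `G_K` with `φ(u g) = θ(u) φ(g)` for `u` in `G_M`. The group acts by
`(x φ)(g) = φ(g x)`. -/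
def Induced (M : IntermediateField K (SeparableClosure K)) (θ : Rep K p m) :
    Submodule (PadicAlgCl p) (GK K → Fin m → PadicAlgCl p) where
  carrier := {φ | ∀ u ∈ M.fixingSubgroup, ∀ g, φ (u * g) = (mat θ u).mulVec (φ g)}
  zero_mem' := fun u _ g => by simp
  add_mem' := fun {φ ψ} hφ hψ u hu g => by
    rw [Pi.add_apply, Pi.add_apply, hφ u hu g, hψ u hu g, Matrix.mulVec_add]
  smul_mem' := fun c φ hφ u hu g => by
    rw [Pi.smul_apply, Pi.smul_apply, hφ u hu g, Matrix.mulVec_smul]

/-- `ρ` is a subquotient of the representation of `G_K` induced from the restriction of `θ` to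
`G_M`. -/
def SubquotientOfInduced (M : IntermediateField K (SeparableClosure K)) (ρ : Rep K p n)
    (θ : Rep K p m) : Prop :=
  ∃ (T : Submodule (PadicAlgCl p) (GK K → Fin m → PadicAlgCl p))
    (π : T →ₗ[PadicAlgCl p] (Fin n → PadicAlgCl p)), T ≤ Induced M θ ∧ Function.Surjective π ∧
    ∀ (x : GK K) (φ : T), ∃ h : (fun g => φ.1 (g * x)) ∈ T,
      π ⟨fun g => φ.1 (g * x), h⟩ = (mat ρ x).mulVec (π φ)

end Pool.Agent.H73.FF
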