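import Pool.Agent.H73.FF.Defs

/-!
# From restrictions to induced representations
-/

set_option autoImplicit false

namespace Pool.Agent.H73.FF

variable {K : Type} [Field K] {p : ℕ} [Fact p.Prime] {n m : ℕ}

theorem mat_mul (ρ : Rep K p n) (g h : GK K) : mat ρ (g * h) = mat ρ g * mat ρ h := by
  unfold mat
  rw [map_mul, Units.val_mul]

theorem mat_one (ρ : Rep K p n) : mat ρ 1 = 1 := by
  unfold mat
  rw [map_one, Units.val_one]

theorem mat_inv_mul (ρ : Rep K p n) (g : GK K) : mat ρ g⁻¹ * mat ρ g = 1 := by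
  rw [← mat_mul, inv_mul_cancel, mat_one]

theorem mat_mul_inv (ρ : Rep K p n) (g : GK K) : mat ρ g * mat ρ g⁻¹ = 1 := by
  rw [← mat_mul, mul_inv_cancel, mat_one]

theorem sub_induced (M : IntermediateField K (SeparableClosure K)) (ρ : Rep K p n)
    (θ : Rep K p m) (h : SubquotientOver M ρ θ) : SubquotientOfInduced M ρ θ := by
  classical
  obtain ⟨S, π, hπ, hS⟩ := h
  -- the space
  let T : Submodule (PadicAlgCl p) (GK K → Fin m → PadicAlgCl p) :=
    { carrier := {φ | φ ∈ Induced M θ ∧ ∃ hφ : ∀ g, φ g ∈ S, ∀ g,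
        π ⟨φ g, hφ g⟩ = (mat ρ g).mulVec (π ⟨φ 1, hφ 1⟩)}
      zero_mem' := by
        refine ⟨Submodule.zero_mem _, fun g => S.zero_mem, fun g => ?_⟩
        have e : (⟨(0 : GK K → Fin m → PadicAlgCl p) g, S.zero_mem⟩ : S) = 0 := rfl
        have e' : (⟨(0 : GK K → Fin m → PadicAlgCl p) 1, S.zero_mem⟩ : S) = 0 := rfl
        rw [e, e', map_zero, Matrix.mulVec_zero]
      add_mem' := by
        rintro φ ψ ⟨h1, h2, h3⟩ ⟨k1, k2, k3⟩
        refine ⟨Submodule.add_mem _ h1 k1, fun g => S.add_mem (h2 g) (k2 g), fun g => ?_⟩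
        have e : ∀ g, (⟨(φ + ψ) g, S.add_mem (h2 g) (k2 g)⟩ : S) =
            ⟨φ g, h2 g⟩ + ⟨ψ g, k2 g⟩ := fun g => rfl
        rw [e, e, map_add, map_add, h3 g, k3 g, Matrix.mulVec_add]
      smul_mem' := by
        rintro c φ ⟨h1, h2, h3⟩
        refine ⟨Submodule.smul_mem _ c h1, fun g => S.smul_mem c (h2 g), fun g => ?_⟩
        have e : ∀ g, (⟨(c • φ) g, S.smul_mem c (h2 g)⟩ : S) = c • ⟨φ g, h2 g⟩ := fun g => rfl
        rw [e, e, map_smul, map_smul, h3 g, Matrix.mulVec_smul] }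
  let Pp : T →ₗ[PadicAlgCl p] (Fin n → PadicAlgCl p) :=
    { toFun := fun φ => π ⟨φ.1 1, φ.2.2.choose 1⟩
      map_add' := by
        intro φ ψ
        rw [← map_add]
        rfl
      map_smul' := by
        intro c φ
        rw [RingHom.id_apply, ← map_smul]
        rfl }
  have hPp : ∀ (φ : T) (g : GK K) (hg : φ.1 g ∈ S), π ⟨φ.1 g, hg⟩ = (mat ρ g).mulVec (Pp φ) :=
    fun φ g hg => φ.2.2.choose_spec g
  refine ⟨T, Pp, fun φ hφ => hφ.1, ?_, ?_⟩
  · intro y
    -- a choice of preimages and of representatives of the cosets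
    choose s hs using fun r : GK K => hπ ((mat ρ r).mulVec y)
    let rr : GK K → GK K := fun g =>
      (Quotient.mk (QuotientGroup.rightRel M.fixingSubgroup) g).out
    have hrr : ∀ g, g * (rr g)⁻¹ ∈ M.fixingSubgroup := by
      intro g
      have : (QuotientGroup.rightRel M.fixingSubgroup) (rr g) g :=
        Quotient.mk_out (s := QuotientGroup.rightRel M.fixingSubgroup) g
      rw [QuotientGroup.rightRel_apply] at this
      exact this
    have hru : ∀ u ∈ M.fixingSubgroup, ∀ g, rr (u * g) = rr g := by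
      intro u hu g
      have : Quotient.mk (QuotientGroup.rightRel M.fixingSubgroup) (u * g) =
          Quotient.mk (QuotientGroup.rightRel M.fixingSubgroup) g := by
        apply Quotient.sound
        show (QuotientGroup.rightRel M.fixingSubgroup) (u * g) g
        rw [QuotientGroup.rightRel_apply]
        have e : g * (u * g)⁻¹ = u⁻¹ := by group
        rw [e]
        exact inv_mem hu
      show (Quotient.mk (QuotientGroup.rightRel M.fixingSubgroup) (u * g)).out = _
      rw [this]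
    let φ : GK K → Fin m → PadicAlgCl p := fun g =>
      (mat θ (g * (rr g)⁻¹)).mulVec (s (rr g) : Fin m → PadicAlgCl p)
    have hφS : ∀ g, φ g ∈ S := fun g => (hS _ (hrr g) (s (rr g))).choose
    have hφπ : ∀ g, π ⟨φ g, hφS g⟩ = (mat ρ g).mulVec y := by
      intro g
      have h1 : π ⟨φ g, hφS g⟩ = (mat ρ (g * (rr g)⁻¹)).mulVec (π (s (rr g))) :=
        (hS _ (hrr g) (s (rr g))).choose_spec
      rw [h1, hs, Matrix.mulVec_mulVec, ← mat_mul, inv_mul_cancel_right]
    have hφT : φ ∈ T := by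
      refine ⟨?_, hφS, ?_⟩
      · intro u hu g
        show (mat θ (u * g * (rr (u * g))⁻¹)).mulVec _ = (mat θ u).mulVec ((mat θ _).mulVec _)
        rw [hru u hu g, Matrix.mulVec_mulVec, ← mat_mul, mul_assoc]
      · intro g
        rw [hφπ g, hφπ 1, mat_one, Matrix.one_mulVec]
    refine ⟨⟨φ, hφT⟩, ?_⟩
    have := hφπ 1
    rw [mat_one, Matrix.one_mulVec] at this
    exact this
  · intro x φ
    have hmem : (fun g => φ.1 (g * x)) ∈ T := by
      obtain ⟨φ, h1, h2, h3⟩ := φ
      refine ⟨?_, fun g => h2 (g * x), fun g => ?_⟩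
      · intro u hu g
        show φ (u * g * x) = _
        rw [mul_assoc]
        exact h1 u hu (g * x)
      · show π ⟨φ (g * x), _⟩ = (mat ρ g).mulVec (π ⟨φ (1 * x), _⟩)
        rw [h3 (g * x), h3 (1 * x), Matrix.mulVec_mulVec, ← mat_mul, one_mul]
    refine ⟨hmem, ?_⟩
    have h1 := hPp φ (1 * x) (φ.2.2.choose (1 * x))
    show π ⟨φ.1 (1 * x), _⟩ = _
    rw [h1, one_mul]

theorem subquotient_of_sub (M : IntermediateField K (SeparableClosure K)) (ρ : Rep K p n)
    (θ : Rep K p m) (h : SubOver M ρ θ) : SubquotientOver M ρ θ := by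
  obtain ⟨X, hX, hM⟩ := h
  have hinj : Function.Injective (Matrix.mulVecLin X) := by
    rw [← LinearMap.ker_eq_bot]
    rw [LinearMap.ker_eq_bot']
    intro y hy
    exact hX y hy
  let e := LinearEquiv.ofInjective (Matrix.mulVecLin X) hinj
  refine ⟨LinearMap.range (Matrix.mulVecLin X), e.symm.toLinearMap, e.symm.surjective, ?_⟩
  intro g hg u
  have hu : u = e (e.symm u) := (e.apply_symm_apply u).symm
  have hu' : (u : Fin m → PadicAlgCl p) = X.mulVec (e.symm u) := by
    conv_lhs => rw [hu]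
    rfl
  have key : (mat θ g).mulVec u.1 = X.mulVec ((mat ρ g).mulVec (e.symm u)) := by
    rw [hu', Matrix.mulVec_mulVec, hM g hg, Matrix.mulVec_mulVec]
  refine ⟨?_, ?_⟩
  · rw [key]
    exact ⟨_, rfl⟩
  · show e.symm ⟨_, _⟩ = (mat ρ g).mulVec (e.symm u)
    rw [LinearEquiv.symm_apply_eq]
    apply Subtype.ext
    exact key

end Pool.Agent.H73.FF
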