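import Pool.Agent.H73.BI.Open
import Pool.Agent.H73.FF.Ind

/-!
# Descent from an infinite extension of finite `p`-part
-/

set_option autoImplicit false

namespace Pool.Agent.H73.FF

open Pool.Agent.H73.BI

open Pool.Agent.H73.FF

variable {K : Type} [Field K] {p : ℕ} [Fact p.Prime] {n m : ℕ}

theorem cast_ne_zero : ((p : ℕ) : PadicAlgCl p) ≠ 0 :=
  Nat.cast_ne_zero.mpr (Fact.out : p.Prime).ne_zero

theorem norm_p_eq : ‖((p : ℕ) : PadicAlgCl p)‖ = (p : ℝ)⁻¹ := by
  rw [← map_natCast (algebraMap ℚ_[p] (PadicAlgCl p))]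
  have := PadicAlgCl.norm_extends p (p : ℚ_[p])
  rw [this, Padic.norm_p]

theorem norm_p_lt : ‖((p : ℕ) : PadicAlgCl p)‖ < 1 := by
  rw [norm_p_eq]
  exact inv_lt_one_of_one_lt₀ (by exact_mod_cast (Fact.out : p.Prime).one_lt)

/-- the direct sum of two representations -/
noncomputable def dsum (ρ : Rep K p n) (θ : Rep K p m) :
    GK K →* GL (Fin n ⊕ Fin m) (PadicAlgCl p) where
  toFun g :=
    { val := Matrix.fromBlocks (mat ρ g) 0 0 (mat θ g)
      inv := Matrix.fromBlocks (mat ρ g⁻¹) 0 0 (mat θ g⁻¹)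
      val_inv := by
        rw [Matrix.fromBlocks_multiply]
        simp [mat_mul_inv]
      inv_val := by
        rw [Matrix.fromBlocks_multiply]
        simp [mat_inv_mul] }
  map_one' := by
    ext1
    simp [mat_one]
  map_mul' g h := by
    ext1
    simp [Matrix.fromBlocks_multiply, mat_mul]

theorem continuous_mat {ρ : Rep K p n} (hρ : Continuous ρ) : Continuous (mat ρ) :=
  Units.continuous_val.comp hρ

theorem continuous_dsum {ρ : Rep K p n} {θ : Rep K p m} (hρ : Continuous ρ)
    (hθ : Continuous θ) : Continuous (dsum ρ θ) := by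
  rw [Units.continuous_iff]
  have h1 := continuous_mat hρ
  have h2 := continuous_mat hθ
  constructor
  · exact Continuous.matrix_fromBlocks h1 continuous_const continuous_const h2
  · exact Continuous.matrix_fromBlocks (h1.comp continuous_inv) continuous_const
      continuous_const (h2.comp continuous_inv)

theorem mem_ker_dsum {ρ : Rep K p n} {θ : Rep K p m} {g : GK K} (h : g ∈ (dsum ρ θ).ker) :
    mat ρ g = 1 ∧ mat θ g = 1 := by
  rw [MonoidHom.mem_ker] at h
  have h' : Matrix.fromBlocks (mat ρ g) 0 0 (mat θ g) = 1 := congrArg Units.val h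
  rw [← Matrix.fromBlocks_one, Matrix.fromBlocks_inj] at h'
  exact ⟨h'.1, h'.2.2.2⟩

/-- open subgroups containing `G_L` are the groups `G_M` for finite subextensions `M` of `L` -/
theorem open_field (L : IntermediateField K (SeparableClosure K))
    (U : Subgroup (GK K)) (hU : IsOpen (U : Set (GK K))) (hL : L.fixingSubgroup ≤ U) :
    ∃ M : IntermediateField K (SeparableClosure K), M ≤ L ∧ FiniteDimensional K M ∧
      M.fixingSubgroup = U ∧ Module.finrank K M = U.index := by
  have hc : IsClosed (U : Set (GK K)) := Subgroup.isClosed_of_isOpen U hU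
  have e : (IntermediateField.fixedField U).fixingSubgroup = U :=
    InfiniteGalois.fixingSubgroup_fixedField (⟨U, hc⟩ : ClosedSubgroup (GK K))
  refine ⟨IntermediateField.fixedField U, ?_, ?_, e, ?_⟩
  · rw [← InfiniteGalois.fixedField_fixingSubgroup L]
    intro x hx
    rw [IntermediateField.mem_fixedField_iff] at hx ⊢
    exact fun g hg => hx g (hL hg)
  · rw [← InfiniteGalois.isOpen_iff_finite, e]
    exact hU
  · rw [IntermediateField.finrank_eq_fixingSubgroup_index, e]

theorem descend_index (ρ : Rep K p n) (θ : Rep K p m) (hρ : Continuous ρ)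
    (hθ : Continuous θ) (L : IntermediateField K (SeparableClosure K)) (C : ℕ)
    (hC : ∀ M : IntermediateField K (SeparableClosure K), M ≤ L → FiniteDimensional K M →
      ¬ p ^ (C + 1) ∣ Module.finrank K M)
    (h : SubquotientOver L ρ θ) :
    ∃ M : IntermediateField K (SeparableClosure K), M ≤ L ∧ FiniteDimensional K M ∧
      SubquotientOver M ρ θ := by
  have hcl : IsClosed ((L.fixingSubgroup ⊔ (dsum ρ θ).ker : Subgroup (GK K)) : Set (GK K)) := by
    rw [Subgroup.mul_normal]
    have h1 : IsCompact (L.fixingSubgroup : Set (GK K)) :=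
      (InfiniteGalois.fixingSubgroup_isClosed L).isCompact
    have h2 : IsCompact ((dsum ρ θ).ker : Set (GK K)) := by
      have : IsClosed ((dsum ρ θ).ker : Set (GK K)) := by
        have e : ((dsum ρ θ).ker : Set (GK K)) = dsum ρ θ ⁻¹' {1} := by
          ext g; simp [MonoidHom.mem_ker]
        rw [e]
        exact isClosed_singleton.preimage (continuous_dsum hρ hθ)
      exact this.isCompact
    exact (h1.mul h2).isClosed
  have hop := open_of_index p cast_ne_zero norm_p_lt (dsum ρ θ) (continuous_dsum hρ hθ) _ hcl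
    le_sup_right C (by
      intro U hU hZU
      obtain ⟨M, h1, h2, -, h4⟩ := open_field L U hU (le_sup_left.trans hZU)
      rw [← h4]
      exact hC M h1 h2)
  obtain ⟨M, h1, h2, h3, -⟩ := open_field L _ hop le_sup_left
  refine ⟨M, h1, h2, ?_⟩
  obtain ⟨S, π, hπ, hS⟩ := h
  refine ⟨S, π, hπ, ?_⟩
  intro g hg u
  rw [h3] at hg
  obtain ⟨x, hx, k, hk, rfl⟩ := Subgroup.mem_sup_of_normal_right.mp hg
  obtain ⟨k1, k2⟩ := mem_ker_dsum hk
  have e1 : mat θ (x * k) = mat θ x := by rw [mat_mul, k2, mul_one]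
  have e2 : mat ρ (x * k) = mat ρ x := by rw [mat_mul, k1, mul_one]
  obtain ⟨h, hh⟩ := hS x hx u
  refine ⟨by rw [e1]; exact h, ?_⟩
  rw [e2, ← hh]
  congr 1
  apply Subtype.ext
  show (mat θ (x * k)).mulVec u.1 = (mat θ x).mulVec u.1
  rw [e1]

end Pool.Agent.H73.FF
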