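import Mathlib

/-!
# Common eigenvectors for solvable quotients of profinite groups, on an open subgroup
-/

set_option autoImplicit false

namespace Pool.Agent.H73.FF

variable {F : Type*} [Field F] [IsAlgClosed F]
variable {V : Type*} [AddCommGroup V] [Module F V] [FiniteDimensional F V]

theorem common_eigen (S : Submodule F V) (hS : S ≠ ⊥) {ι : Type*} (A : ι → Module.End F V)
    (hA : ∀ i, ∀ x ∈ S, A i x ∈ S) (hc : ∀ i j, ∀ x ∈ S, A i (A j x) = A j (A i x)) :
    ∃ x : V, x ≠ 0 ∧ ∀ i, ∃ c : F, A i x = c • x := by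
  classical
  have hex : ∃ k : ℕ, ∃ W : Submodule F V, W ≤ S ∧ W ≠ ⊥ ∧ (∀ i, ∀ x ∈ W, A i x ∈ W) ∧
      Module.finrank F W = k := ⟨_, S, le_rfl, hS, hA, rfl⟩
  obtain ⟨W, hWS, hW0, hWact, hWk⟩ := Nat.find_spec hex
  have hmin := fun k => Nat.find_min (m := k) hex
  have hscal : ∀ i, ∃ c : F, ∀ x ∈ W, A i x = c • x := by
    intro i
    haveI : Nontrivial W := Submodule.nontrivial_iff_ne_bot.mpr hW0
    obtain ⟨c, hc'⟩ := Module.End.exists_eigenvalue ((A i).restrict (hWact i))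
    obtain ⟨w, hw⟩ := hc'.exists_hasEigenvector
    have hw1 : A i w.1 = c • w.1 := congrArg Subtype.val hw.apply_eq_smul
    have hw2 : w.1 ≠ 0 := fun e => hw.2 (Subtype.ext e)
    let Z : Submodule F V :=
      { carrier := {x | x ∈ W ∧ A i x = c • x}
        zero_mem' := ⟨W.zero_mem, by rw [map_zero, smul_zero]⟩
        add_mem' := fun {x y} hx hy => ⟨W.add_mem hx.1 hy.1, by
          rw [map_add, hx.2, hy.2, smul_add]⟩
        smul_mem' := fun d x hx => ⟨W.smul_mem d hx.1, by rw [map_smul, hx.2, smul_comm]⟩ }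
    have hZW : Z ≤ W := fun x hx => hx.1
    have hZ0 : Z ≠ ⊥ := by
      intro hb
      have : w.1 ∈ Z := ⟨w.2, hw1⟩
      rw [hb] at this
      exact hw2 ((Submodule.mem_bot _).mp this)
    have hZact : ∀ j, ∀ x ∈ Z, A j x ∈ Z := by
      intro j x hx
      refine ⟨hWact j x hx.1, ?_⟩
      rw [hc i j x (hWS hx.1), hx.2, map_smul]
    have hle := Submodule.finrank_mono hZW
    have heq : Module.finrank F Z = Module.finrank F W := by
      apply le_antisymm hle
      by_contra hlt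
      push Not at hlt
      rw [hWk] at hlt
      exact hmin _ hlt ⟨Z, hZW.trans hWS, hZ0, hZact, rfl⟩
    have hZeq : Z = W := Submodule.eq_of_le_of_finrank_eq hZW heq
    refine ⟨c, fun x hx => ?_⟩
    rw [← hZeq] at hx
    exact hx.2
  obtain ⟨x, hxW, hx⟩ := Submodule.exists_mem_ne_zero_of_ne_bot hW0
  exact ⟨x, hx, fun i => by
    obtain ⟨c, hc⟩ := hscal i
    exact ⟨c, hc x hxW⟩⟩

variable [TopologicalSpace F] [T1Space F]
variable {G : Type*} [Group G] [TopologicalSpace G] [IsTopologicalGroup G] [CompactSpace G]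
  [TotallyDisconnectedSpace G]

theorem exists_open_sub (N : Set G) (hN : IsOpen N) (h1 : (1 : G) ∈ N) :
    ∃ U : Subgroup G, IsOpen (U : Set G) ∧ U.Normal ∧ (U : Set G) ⊆ N := by
  obtain ⟨K, hK⟩ := ProfiniteGrp.exist_openNormalSubgroup_sub_open_nhds_of_one hN h1
  exact ⟨K.toSubgroup, K.isOpen, K.isNormal', hK⟩

theorem step (f : G →* Module.End F V)
    (hcont : ∀ (φ : Module.Dual F V) (x : V), Continuous fun g => φ (f g x))
    (H D : Subgroup G) (hDH : D ≤ H) (hcomm : ∀ x ∈ H, ∀ y ∈ H, x * y * x⁻¹ * y⁻¹ ∈ D)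
    (U0 : Subgroup G) (hU0 : IsOpen (U0 : Set G)) (v : V) (hv : v ≠ 0)
    (hvD : ∀ u ∈ U0, u ∈ D → ∃ c : F, f u v = c • v) :
    ∃ (U : Subgroup G) (x : V), IsOpen (U : Set G) ∧ x ≠ 0 ∧
      ∀ u ∈ U, u ∈ H → ∃ c : F, f u x = c • x := by
  classical
  obtain ⟨U1, hU1o, hU1n, hU1⟩ := exists_open_sub (U0 : Set G) hU0 (one_mem U0)
  obtain ⟨φ, hφ⟩ : ∃ φ : Module.Dual F V, φ v = 1 := by
    obtain ⟨ψ, hψ⟩ : ∃ ψ : Module.Dual F V, ψ v ≠ 0 := by
      by_contra hcon
      push Not at hcon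
      exact hv ((Module.forall_dual_apply_eq_zero_iff F v).mp hcon)
    refine ⟨(ψ v)⁻¹ • ψ, ?_⟩
    rw [LinearMap.smul_apply, smul_eq_mul, inv_mul_cancel₀ hψ]
  obtain ⟨lam, hlam0⟩ : ∃ lam : G → F, ∀ g, lam g = φ (f g v) := ⟨_, fun g => rfl⟩
  have hlamc : Continuous lam := by
    have : lam = fun g => φ (f g v) := funext hlam0
    rw [this]
    exact hcont φ v
  have hlam1 : lam 1 = 1 := by rw [hlam0, map_one, Module.End.one_apply, hφ]
  let W : Subgroup G := U1 ⊓ D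
  have hmul : ∀ (g h : G) (x : V), f (g * h) x = f g (f h x) := by
    intro g h x
    rw [map_mul, Module.End.mul_apply]
  have hone : ∀ x : V, f 1 x = x := by
    intro x
    rw [map_one, Module.End.one_apply]
  have hWl : ∀ w ∈ W, f w v = lam w • v := by
    intro w hw
    obtain ⟨c, hc⟩ := hvD w (hU1 hw.1) hw.2
    rw [hlam0, hc, map_smul, hφ, smul_eq_mul, mul_one]
  have hDn : ∀ h ∈ H, ∀ d ∈ D, h⁻¹ * d * h ∈ D := by
    intro h hh d hd
    have h1 := hcomm h⁻¹ (inv_mem hh) d (hDH hd)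
    rw [inv_inv] at h1
    have h2 := mul_mem h1 hd
    rwa [inv_mul_cancel_right] at h2
  have hWn : ∀ h ∈ H, ∀ w ∈ W, h⁻¹ * w * h ∈ W := by
    intro h hh w hw
    refine ⟨?_, hDn h hh w hw.2⟩
    have := hU1n.conj_mem w hw.1 h⁻¹
    rwa [inv_inv] at this
  have hne : ∀ (g : G) (x : V), x ≠ 0 → f g x ≠ 0 := by
    intro g x hx h0
    apply hx
    have : f g⁻¹ (f g x) = x := by rw [← hmul, inv_mul_cancel, hone]
    rw [← this, h0, map_zero]
  have hconj : ∀ h ∈ H, ∀ w ∈ W, f w (f h v) = lam (h⁻¹ * w * h) • f h v := by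
    intro h hh w hw
    have e : w * h = h * (h⁻¹ * w * h) := by group
    rw [← hmul, e, hmul, hWl _ (hWn h hh w hw), map_smul]
  -- finitely many elements of `W` suffice
  have hfg : (Submodule.span F ((fun w : G => f w) '' (W : Set G))).FG :=
    IsNoetherian.noetherian _
  obtain ⟨T, hTs, hT⟩ := (Submodule.fg_span_iff_fg_span_finset_subset _).mp hfg
  have hTw : ∀ τ ∈ T, ∃ w, w ∈ W ∧ f w = τ := fun τ hτ => hTs hτ
  choose! wt hwtW hwt using hTw
  have hopen : ∀ (s : Set F) (e : G → G), s.Finite → Continuous e →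
      IsOpen {g : G | lam (e g) ∉ s} := by
    intro s e hs he
    exact (hs.isClosed.preimage (hlamc.comp he)).isOpen_compl
  have hNo : IsOpen (⋂ τ ∈ T, {g : G | lam (g⁻¹ * wt τ * g) ∉
      {c : F | c ≠ lam (wt τ) ∧ Module.End.HasEigenvalue (f (wt τ)) c}}) := by
    apply isOpen_biInter_finset
    intro τ _
    apply hopen _ (fun g => g⁻¹ * wt τ * g)
    · exact (Module.End.finite_hasEigenvalue (f (wt τ))).subset (fun c hc => hc.2)
    · fun_prop
  obtain ⟨U2, hU2o, -, hU2⟩ := exists_open_sub _ hNo (by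
    simp)
  have hlam : ∀ h ∈ H, h ∈ U2 → ∀ w ∈ W, lam (h⁻¹ * w * h) = lam w := by
    intro h hh hhU w hw
    have hN := hU2 hhU
    let Q : Submodule F (Module.End F V) :=
      { carrier := {a | a (f h v) = φ (a v) • f h v}
        zero_mem' := by simp
        add_mem' := fun {a b} ha hb => by
          have ha' : a (f h v) = φ (a v) • f h v := ha
          have hb' : b (f h v) = φ (b v) • f h v := hb
          show (a + b) (f h v) = φ ((a + b) v) • f h v
          rw [LinearMap.add_apply, LinearMap.add_apply, map_add, add_smul, ha', hb']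
        smul_mem' := fun c a ha => by
          have ha' : a (f h v) = φ (a v) • f h v := ha
          show (c • a) (f h v) = φ ((c • a) v) • f h v
          rw [LinearMap.smul_apply, LinearMap.smul_apply, map_smul, ha', smul_smul, smul_eq_mul] }
    have hTQ : Submodule.span F (T : Set (Module.End F V)) ≤ Q := by
      rw [Submodule.span_le]
      intro τ hτ
      have h1 := hconj h hh _ (hwtW τ hτ)
      have h2 := Set.mem_iInter₂.mp hN τ hτ
      have h3 : lam (h⁻¹ * wt τ * h) = lam (wt τ) := by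
        by_contra hcon
        apply h2
        exact ⟨hcon, Module.End.hasEigenvalue_of_hasEigenvector
          ⟨Module.End.mem_eigenspace_iff.mpr h1, hne h v hv⟩⟩
      have h4 : f (wt τ) (f h v) = φ (f (wt τ) v) • f h v := by rw [h1, h3, hlam0]
      rw [hwt τ hτ] at h4
      exact h4
    have hmem : f w ∈ Q := by
      apply hTQ
      rw [← hT]
      exact Submodule.subset_span ⟨w, hw, rfl⟩
    have h1 := hconj h hh w hw
    have h2 : f w (f h v) = φ (f w v) • f h v := hmem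
    rw [h1, ← hlam0] at h2
    have h3 : (lam (h⁻¹ * w * h) - lam w) • f h v = 0 := by rw [sub_smul, h2, sub_self]
    rcases smul_eq_zero.mp h3 with h4 | h4
    · exact sub_eq_zero.mp h4
    · exact absurd h4 (hne _ _ hv)
  -- the eigenspace
  let S : Submodule F V :=
    { carrier := {x | ∀ w ∈ W, f w x = lam w • x}
      zero_mem' := fun w _ => by rw [map_zero, smul_zero]
      add_mem' := fun {x y} hx hy w hw => by rw [map_add, hx w hw, hy w hw, smul_add]
      smul_mem' := fun c x hx w hw => by rw [map_smul, hx w hw, smul_comm] }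
  have hSst : ∀ h ∈ H, h ∈ U2 → ∀ x ∈ S, f h x ∈ S := by
    intro h hh hhU x hx w hw
    have e : w * h = h * (h⁻¹ * w * h) := by group
    rw [← hmul, e, hmul, hx _ (hWn h hh w hw), map_smul, hlam h hh hhU w hw]
  have hvS : v ∈ S := fun w hw => hWl w hw
  have hS0 : S ≠ ⊥ := by
    intro hb
    rw [hb] at hvS
    exact hv ((Submodule.mem_bot _).mp hvS)
  have hcW : ∀ h ∈ H, h ∈ U1 → ∀ h' ∈ H, h' ∈ U1 → h * h' * h⁻¹ * h'⁻¹ ∈ W := by
    intro h hh hhU h' hh' hhU'
    exact ⟨U1.mul_mem (U1.mul_mem (U1.mul_mem hhU hhU') (U1.inv_mem hhU)) (U1.inv_mem hhU'),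
      hcomm h hh h' hh'⟩
  have hrel : ∀ h ∈ H, h ∈ U1 ⊓ U2 → ∀ h' ∈ H, h' ∈ U1 ⊓ U2 → ∀ x ∈ S,
      f h (f h' x) = lam (h * h' * h⁻¹ * h'⁻¹) • f h' (f h x) := by
    intro h hh hhU h' hh' hhU' x hx
    have e : (h * h' * h⁻¹ * h'⁻¹) * (h' * h) = h * h' := by group
    have h1 : f (h' * h) x ∈ S := by
      rw [hmul]
      exact hSst h' hh' hhU'.2 _ (hSst h hh hhU.2 x hx)
    have h2 := h1 _ (hcW h hh hhU.1 h' hh' hhU'.1)
    rw [← hmul, e, hmul, hmul] at h2
    exact h2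
  have hdet0 : ∀ (h : G) (hh : h ∈ H) (hhU : h ∈ U1 ⊓ U2),
      LinearMap.det ((f h).restrict (hSst h hh hhU.2)) ≠ 0 := by
    intro h hh hhU h0
    have e : (f h).restrict (hSst h hh hhU.2) ∘ₗ
        (f h⁻¹).restrict (hSst h⁻¹ (H.inv_mem hh) (U2.inv_mem hhU.2)) = LinearMap.id := by
      ext x
      show f h (f h⁻¹ x.1) = x.1
      rw [← hmul, mul_inv_cancel, hone]
    have h1 := congrArg LinearMap.det e
    rw [LinearMap.det_comp, h0, zero_mul, LinearMap.det_id] at h1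
    exact zero_ne_one h1
  have hroot : ∀ h ∈ H, h ∈ U1 ⊓ U2 → ∀ h' ∈ H, h' ∈ U1 ⊓ U2 →
      lam (h * h' * h⁻¹ * h'⁻¹) ^ Module.finrank F S = 1 := by
    intro h hh hhU h' hh' hhU'
    have e : (f h).restrict (hSst h hh hhU.2) ∘ₗ (f h').restrict (hSst h' hh' hhU'.2) =
        lam (h * h' * h⁻¹ * h'⁻¹) • ((f h').restrict (hSst h' hh' hhU'.2) ∘ₗ
          (f h).restrict (hSst h hh hhU.2)) := by
      ext x
      exact hrel h hh hhU h' hh' hhU' x.1 x.2
    have h1 := congrArg LinearMap.det e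
    rw [LinearMap.det_comp, LinearMap.det_smul, LinearMap.det_comp] at h1
    have h2 := hdet0 h hh hhU
    have h3 := hdet0 h' hh' hhU'
    have h4 := mul_ne_zero h3 h2
    have h5 : (lam (h * h' * h⁻¹ * h'⁻¹) ^ Module.finrank F S - 1) *
        (LinearMap.det ((f h').restrict (hSst h' hh' hhU'.2)) *
          LinearMap.det ((f h).restrict (hSst h hh hhU.2))) = 0 := by
      rw [sub_mul, ← h1]; ring
    rcases mul_eq_zero.mp h5 with h6 | h6
    · exact sub_eq_zero.mp h6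
    · exact absurd h6 h4
  haveI : Nontrivial S := Submodule.nontrivial_iff_ne_bot.mpr hS0
  have hm : 0 < Module.finrank F S := Module.finrank_pos
  have hfin : {c : F | c ≠ 1 ∧ c ^ Module.finrank F S = 1}.Finite := by
    apply Set.Finite.subset (Multiset.toFinset (Polynomial.nthRoots (Module.finrank F S) (1 : F))
      ).finite_toSet
    intro c hc
    simp only [Finset.mem_coe, Multiset.mem_toFinset]
    exact (Polynomial.mem_nthRoots hm).mpr hc.2
  have hN3 := hopen _ (fun g => g) hfin continuous_id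
  obtain ⟨U3, hU3o, -, hU3⟩ := exists_open_sub _ hN3 (by
    simp [hlam1])
  obtain ⟨x, hx, hxc⟩ := common_eigen S hS0
    (fun g : {g : G // g ∈ U1 ⊓ U2 ⊓ U3 ∧ g ∈ H} => f g.1)
    (fun g x hx => hSst g.1 g.2.2 g.2.1.1.2 x hx)
    (by
      intro g g' x hx
      have h1 := hroot g.1 g.2.2 g.2.1.1 g'.1 g'.2.2 g'.2.1.1
      have h2 : g.1 * g'.1 * g.1⁻¹ * g'.1⁻¹ ∈ U3 :=
        mul_mem (mul_mem (mul_mem g.2.1.2 g'.2.1.2) (inv_mem g.2.1.2)) (inv_mem g'.2.1.2)
      have h3 := hU3 h2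
      have h4 : lam (g.1 * g'.1 * g.1⁻¹ * g'.1⁻¹) = 1 := by
        by_contra hcon
        exact h3 ⟨hcon, h1⟩
      have h5 := hrel g.1 g.2.2 g.2.1.1 g'.1 g'.2.2 g'.2.1.1 x hx
      rw [h4, one_smul] at h5
      exact h5)
  refine ⟨U1 ⊓ U2 ⊓ U3, x, (hU1o.inter hU2o).inter hU3o, hx, ?_⟩
  intro u hu huH
  exact hxc ⟨u, hu, huH⟩

theorem lie_kolchin [Nontrivial V] (f : G →* Module.End F V)
    (hcont : ∀ (φ : Module.Dual F V) (x : V), Continuous fun g => φ (f g x))
    (d : ℕ) (S : ℕ → Subgroup G) (hle : ∀ i, S (i + 1) ≤ S i)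
    (hcomm : ∀ i, ∀ x ∈ S i, ∀ y ∈ S i, x * y * x⁻¹ * y⁻¹ ∈ S (i + 1))
    (hd : ∀ g ∈ S d, f g = 1) :
    ∃ (U : Subgroup G) (x : V), IsOpen (U : Set G) ∧ x ≠ 0 ∧
      ∀ u ∈ U, u ∈ S 0 → ∃ c : F, f u x = c • x := by
  induction d generalizing S with
  | zero =>
    obtain ⟨x, hx⟩ := exists_ne (0 : V)
    refine ⟨⊤, x, isOpen_univ, hx, fun u _ hu => ⟨1, ?_⟩⟩
    rw [hd u hu, Module.End.one_apply, one_smul]
  | succ d ih =>
    obtain ⟨U0, v, hU0, hv, hvD⟩ := ih (fun i => S (i + 1)) (fun i => hle (i + 1))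
      (fun i => hcomm (i + 1)) hd
    exact step f hcont (S 0) (S 1) (hle 0) (hcomm 0) U0 hU0 v hv hvD

end Pool.Agent.H73.FF
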