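import Pool.Agent.H73.FF.Desc

/-!
# Torsion extensions
-/

set_option autoImplicit false

namespace Pool.Agent.H73.FF

open Pool.Agent.H73.BI

open Finset

section norms
variable {F : Type*} [NormedField F] [IsUltrametricDist F] {a b c : Type*} [Fintype a] [Fintype b]
  [Fintype c] [DecidableEq a] [DecidableEq b]

/-- all entries are bounded by `r` -/
def Bd {a b : Type*} (r : ℝ) (X : Matrix a b F) : Prop := ∀ i j, ‖X i j‖ ≤ r

theorem bd_mul {r s : ℝ} (hr : 0 ≤ r) (hs : 0 ≤ s) {X : Matrix a b F} {Y : Matrix b c F}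
    (hX : Bd r X) (hY : Bd s Y) : Bd (r * s) (X * Y) := by
  intro i j
  rw [Matrix.mul_apply]
  apply IsUltrametricDist.norm_sum_le_of_forall_le_of_nonneg (by positivity)
  intro l _
  rw [norm_mul]
  exact mul_le_mul (hX i l) (hY l j) (norm_nonneg _) hr

theorem bd_add {r : ℝ} {X Y : Matrix a b F} (hX : Bd r X) (hY : Bd r Y) : Bd r (X + Y) := by
  intro i j
  rw [Matrix.add_apply]
  exact (IsUltrametricDist.norm_add_le_max _ _).trans (max_le (hX i j) (hY i j))

theorem near_bd {r : ℝ} (hr : r ≤ 1) {A : Matrix a a F} (hA : Near r A) : Bd 1 A := by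
  have e : A = (A - 1) + 1 := by simp
  rw [e]
  apply bd_add
  · intro i j
    exact (hA i j).trans hr
  · intro i j
    rw [Matrix.one_apply]
    split_ifs
    · rw [norm_one]
    · rw [norm_zero]; norm_num

theorem near_mul {r : ℝ} (hr0 : 0 ≤ r) (hr : r ≤ 1) {A B : Matrix a a F} (hA : Near r A)
    (hB : Near r B) : Near r (A * B) := by
  have e : A * B - 1 = (A - 1) * B + (B - 1) := by rw [sub_mul, one_mul]; abel
  show Bd r (A * B - 1)
  rw [e]
  apply bd_add _ hB
  have := bd_mul hr0 zero_le_one (show Bd r (A - 1) from hA) (near_bd hr hB)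
  rwa [mul_one] at this

theorem near_one {r : ℝ} (hr0 : 0 ≤ r) : Near r (1 : Matrix a a F) := by
  intro i j
  rw [sub_self, Matrix.zero_apply, norm_zero]
  exact hr0

theorem near_pow' {r : ℝ} (hr0 : 0 ≤ r) (hr : r ≤ 1) {A : Matrix a a F} (hA : Near r A)
    (k : ℕ) : Near r (A ^ k) := by
  induction k with
  | zero => rw [pow_zero]; exact near_one hr0
  | succ k ih => rw [pow_succ]; exact near_mul hr0 hr ih hA

/-- the error term -/
theorem error_term {r y : ℝ} (hr0 : 0 ≤ r) (hr : r ≤ 1) (hy : 0 ≤ y) {A : Matrix a a F}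
    {B : Matrix b b F} (hA : Near r A) (hB : Near r B) (X : Matrix a b F)
    (hY : Bd y (A * X - X * B)) (k : ℕ) :
    Bd (r * y) (A ^ k * X - X * B ^ k - (k : F) • (A * X - X * B)) := by
  induction k with
  | zero =>
    intro i j
    simp only [pow_zero, Nat.cast_zero, zero_smul, Matrix.one_mul, Matrix.mul_one, sub_self,
      Matrix.zero_apply, norm_zero]
    positivity
  | succ k ih =>
    have e : A ^ (k + 1) * X - X * B ^ (k + 1) - ((k + 1 : ℕ) : F) • (A * X - X * B) =
        A * (A ^ k * X - X * B ^ k - (k : F) • (A * X - X * B)) +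
        ((k : F) • ((A - 1) * (A * X - X * B)) + (A * X - X * B) * (B ^ k - 1)) := by
      obtain ⟨Y, hYe⟩ : ∃ Y, Y = A * X - X * B := ⟨_, rfl⟩
      have e1 : A ^ (k + 1) * X - X * B ^ (k + 1) = A * (A ^ k * X - X * B ^ k) + Y * B ^ k := by
        rw [hYe, pow_succ' A, pow_succ' B, Matrix.mul_sub, Matrix.sub_mul, Matrix.mul_assoc,
          Matrix.mul_assoc, Matrix.mul_assoc]
        abel
      rw [← hYe, e1, Nat.cast_succ, add_smul, one_smul, Matrix.mul_sub A _ ((k : F) • Y),
        Matrix.sub_mul, Matrix.one_mul, smul_sub, Matrix.mul_sub Y, Matrix.mul_one,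
        Matrix.mul_smul]
      abel
    rw [e]
    apply bd_add
    · have := bd_mul zero_le_one (mul_nonneg hr0 hy) (near_bd hr hA) ih
      rwa [one_mul] at this
    · apply bd_add
      · intro i j
        rw [Matrix.smul_apply, smul_eq_mul, norm_mul]
        have h1 : ‖(k : F)‖ ≤ 1 := IsUltrametricDist.norm_natCast_le_one F k
        have h2 := bd_mul hr0 hy (show Bd r (A - 1) from hA) hY i j
        calc ‖(k : F)‖ * ‖((A - 1) * (A * X - X * B) : Matrix a b F) i j‖ ≤ 1 * (r * y) :=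
              mul_le_mul h1 h2 (norm_nonneg _) zero_le_one
          _ = r * y := one_mul _
      · have h3 : Near r (B ^ k) := near_pow' hr0 hr hB k
        have := bd_mul hy hr0 hY (show Bd r (B ^ k - 1) from h3)
        rwa [mul_comm y r] at this

theorem prime_step {r : ℝ} (hr0 : 0 ≤ r) (hr : r ≤ 1) {A : Matrix a a F}
    {B : Matrix b b F} (hA : Near r A) (hB : Near r B) (X : Matrix a b F) (q : ℕ)
    (hq : r < ‖(q : F)‖) (h : A ^ q * X = X * B ^ q) : A * X = X * B := by
  by_cases hne : (univ : Finset (a × b)).Nonempty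
  · obtain ⟨x, -, hx⟩ := Finset.exists_max_image univ
      (fun x : a × b => ‖(A * X - X * B) x.1 x.2‖) hne
    have hY : Bd ‖(A * X - X * B) x.1 x.2‖ (A * X - X * B) :=
      fun i j => hx (i, j) (Finset.mem_univ _)
    have h1 := error_term hr0 hr (norm_nonneg _) hA hB X hY q x.1 x.2
    rw [h, sub_self, zero_sub, Matrix.neg_apply, norm_neg, Matrix.smul_apply, smul_eq_mul,
      norm_mul] at h1
    have h2 : ‖(A * X - X * B) x.1 x.2‖ = 0 := by
      by_contra hne0
      have hpos : 0 < ‖(A * X - X * B) x.1 x.2‖ := lt_of_le_of_ne (norm_nonneg _) (Ne.symm hne0)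
      have := mul_lt_mul_of_pos_right hq hpos
      linarith
    ext i j
    have h3 := hY i j
    rw [h2] at h3
    have h4 : (A * X - X * B) i j = 0 := norm_le_zero_iff.mp h3
    rw [Matrix.sub_apply] at h4
    exact sub_eq_zero.mp h4
  · ext i j
    exact absurd ⟨(i, j), Finset.mem_univ _⟩ hne

theorem power_step {r : ℝ} (hr0 : 0 ≤ r) (hr : r ≤ 1)
    (hq : ∀ q : ℕ, q.Prime → r < ‖(q : F)‖) (X : Matrix a b F) :
    ∀ (e : ℕ), 0 < e → ∀ (A : Matrix a a F) (B : Matrix b b F), Near r A → Near r B →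
      A ^ e * X = X * B ^ e → A * X = X * B := by
  intro e
  induction e using Nat.strong_induction_on with
  | _ e ih =>
    intro he A B hA hB h
    by_cases he1 : e = 1
    · rw [he1, pow_one, pow_one] at h; exact h
    · have hqp := Nat.minFac_prime he1
      obtain ⟨t, ht⟩ := Nat.minFac_dvd e
      have ht0 : 0 < t := by
        rcases Nat.eq_zero_or_pos t with h0 | h0
        · rw [h0, mul_zero] at ht; omega
        · exact h0
      have htl : t < e := by
        have h2 := hqp.two_le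
        calc t < 2 * t := by omega
          _ ≤ e.minFac * t := Nat.mul_le_mul_right t h2
          _ = e := ht.symm
      have h' : (A ^ t) ^ e.minFac * X = X * (B ^ t) ^ e.minFac := by
        rw [← pow_mul, ← pow_mul, mul_comm t, ← ht]; exact h
      exact ih t htl ht0 A B hA hB (prime_step hr0 hr (near_pow' hr0 hr hA t)
        (near_pow' hr0 hr hB t) X _ (hq _ hqp) h')

end norms

variable {K : Type} [Field K] {p : ℕ} [Fact p.Prime] {n m : ℕ}

theorem norm_prime (q : ℕ) (hq : q.Prime) :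
    ‖((p : ℕ) : PadicAlgCl p)‖ ^ 2 < ‖((q : ℕ) : PadicAlgCl p)‖ := by
  have h0 : 0 < ‖((p : ℕ) : PadicAlgCl p)‖ := norm_pos_iff.mpr cast_ne_zero
  have h1 : ‖((p : ℕ) : PadicAlgCl p)‖ < 1 := norm_p_lt
  by_cases hqp : q = p
  · rw [hqp]
    nlinarith
  · have e : ‖((q : ℕ) : PadicAlgCl p)‖ = 1 := by
      rw [← map_natCast (algebraMap ℚ_[p] (PadicAlgCl p))]
      have h := PadicAlgCl.norm_extends p (q : ℚ_[p])
      rw [h]
      have hnd : ¬ (p : ℤ) ∣ (q : ℤ) := by
        rw [Int.natCast_dvd_natCast]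
        intro hd
        exact hqp (((Nat.prime_dvd_prime_iff_eq (Fact.out : p.Prime) hq).mp hd).symm)
      have h2 := (Padic.norm_intCast_lt_one_iff (p := p) (k := (q : ℤ))).not.mpr hnd
      have h3 := Padic.norm_int_le_one (p := p) (q : ℤ)
      push_cast at h2 h3
      exact le_antisymm h3 (not_lt.mp h2)
    rw [e]
    nlinarith

theorem descend_torsion (ρ : Rep K p n) (θ : Rep K p m) (hρ : Continuous ρ)
    (hθ : Continuous θ) (L : IntermediateField K (SeparableClosure K))
    (htor : ∀ g : GK K, ∃ e : ℕ, 0 < e ∧ g ^ e ∈ L.fixingSubgroup) (h : SubOver L ρ θ) :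
    ∃ M : IntermediateField K (SeparableClosure K), M ≤ L ∧ FiniteDimensional K M ∧
      SubOver M ρ θ := by
  obtain ⟨X, hX, hL⟩ := h
  obtain ⟨r, hr⟩ : ∃ r : ℝ, r = ‖((p : ℕ) : PadicAlgCl p)‖ ^ 2 := ⟨_, rfl⟩
  have h0 : 0 < ‖((p : ℕ) : PadicAlgCl p)‖ := norm_pos_iff.mpr cast_ne_zero
  have hr0 : 0 < r := by rw [hr]; positivity
  have hr1 : r ≤ 1 := by
    have h1 : ‖((p : ℕ) : PadicAlgCl p)‖ < 1 := norm_p_lt
    rw [hr]; nlinarith
  obtain ⟨U, hU⟩ := ProfiniteGrp.exist_openNormalSubgroup_sub_open_nhds_of_one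
    (U := {g : GK K | ∀ i j, ‖((dsum ρ θ g : Matrix (Fin n ⊕ Fin m) (Fin n ⊕ Fin m)
      (PadicAlgCl p)) - 1) i j‖ < r})
    (by
      have e : {g : GK K | ∀ i j, ‖((dsum ρ θ g : Matrix (Fin n ⊕ Fin m) (Fin n ⊕ Fin m)
          (PadicAlgCl p)) - 1) i j‖ < r} =
          ⋂ i, ⋂ j, {g : GK K | ‖((dsum ρ θ g : Matrix (Fin n ⊕ Fin m) (Fin n ⊕ Fin m)
          (PadicAlgCl p)) - 1) i j‖ < r} := by
        ext g; simp
      rw [e]
      exact isOpen_iInter_of_finite (fun i => isOpen_iInter_of_finite (fun j =>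
        isOpen_lt (continuous_entry (dsum ρ θ) (continuous_dsum hρ hθ) i j).norm
          continuous_const)))
    (by
      intro i j
      simpa using hr0)
  have near1 : ∀ g ∈ U.toSubgroup, Near r (mat ρ g) := by
    intro g hg i j
    have := (hU hg (Sum.inl i) (Sum.inl j)).le
    have e : ((dsum ρ θ g : Matrix (Fin n ⊕ Fin m) (Fin n ⊕ Fin m)
      (PadicAlgCl p)) - 1) (Sum.inl i) (Sum.inl j) = (mat ρ g - 1) i j := by
      rw [← Matrix.fromBlocks_one]
      rfl
    rwa [e] at this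
  have near2 : ∀ g ∈ U.toSubgroup, Near r (mat θ g) := by
    intro g hg i j
    have := (hU hg (Sum.inr i) (Sum.inr j)).le
    have e : ((dsum ρ θ g : Matrix (Fin n ⊕ Fin m) (Fin n ⊕ Fin m)
      (PadicAlgCl p)) - 1) (Sum.inr i) (Sum.inr j) = (mat θ g - 1) i j := by
      rw [← Matrix.fromBlocks_one]
      rfl
    rwa [e] at this
  have matpow : ∀ {k : ℕ} (τ : Rep K p k) (g : GK K) (e : ℕ), mat τ (g ^ e) = mat τ g ^ e := by
    intro k τ g e
    unfold mat
    rw [map_pow, Units.val_pow_eq_pow_val]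
  have hXU : ∀ g ∈ U.toSubgroup, mat θ g * X = X * mat ρ g := by
    intro g hg
    obtain ⟨e, he, hge⟩ := htor g
    have h1 := hL _ hge
    rw [matpow, matpow] at h1
    exact power_step hr0.le hr1 (fun q hq => by rw [hr]; exact norm_prime q hq) X e he _ _
      (near2 g hg) (near1 g hg) h1
  haveI : (U.toSubgroup).Normal := U.isNormal'
  have hop : IsOpen ((L.fixingSubgroup ⊔ U.toSubgroup : Subgroup (GK K)) : Set (GK K)) :=
    Subgroup.isOpen_mono le_sup_right U.isOpen
  obtain ⟨M, h1, h2, h3, -⟩ := open_field L _ hop le_sup_left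
  refine ⟨M, h1, h2, X, hX, ?_⟩
  intro g hg
  rw [h3] at hg
  obtain ⟨x, hx, k, hk, rfl⟩ := Subgroup.mem_sup_of_normal_right.mp hg
  rw [mat_mul, mat_mul, Matrix.mul_assoc, hXU k hk, ← Matrix.mul_assoc, hL x hx,
    Matrix.mul_assoc]

end Pool.Agent.H73.FF
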